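import Pool.Agent.Lib.MP_b06be4_an.KC.Roots

/-!
# The convolution identity
-/

set_option autoImplicit false

namespace Pool.Agent.Lib.MP_b06be4_an.KC

open ArithmeticFunction

/-- The number of roots. -/
noncomputable def rho : ArithmeticFunction ℤ :=
  ⟨fun n => if n = 0 then 0 else (Nat.card (Roots n) : ℤ), if_pos rfl⟩

/-- The indicator function of the squares. -/
def sqi : ArithmeticFunction ℤ :=
  ⟨fun n => if n = 0 then 0 else if IsSquare n then 1 else 0, if_pos rfl⟩

/-- The character modulo three. -/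
def chi : ArithmeticFunction ℤ :=
  ⟨fun n => if n % 3 = 1 then 1 else if n % 3 = 2 then -1 else 0, rfl⟩

theorem rho_apply {n : ℕ} (hn : n ≠ 0) : rho n = Nat.card (Roots n) := if_neg hn

theorem sqi_apply {n : ℕ} (hn : n ≠ 0) : sqi n = if IsSquare n then 1 else 0 := if_neg hn

theorem chi_apply (n : ℕ) : chi n = if n % 3 = 1 then 1 else if n % 3 = 2 then -1 else 0 := rfl

theorem rho_mult : rho.IsMultiplicative := by
  rw [IsMultiplicative.iff_ne_zero]
  refine ⟨?_, ?_⟩
  · rw [rho_apply one_ne_zero, card_roots_unit]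
    rfl
  · intro m n hm hn h
    have := NeZero.mk hm
    have := NeZero.mk hn
    rw [rho_apply hm, rho_apply hn, rho_apply (mul_ne_zero hm hn), card_roots_mul h]
    push_cast
    rfl

theorem isSquare_mul_iff {m n : ℕ} (h : Nat.Coprime m n) :
    IsSquare (m * n) ↔ IsSquare m ∧ IsSquare n := by
  constructor
  · rintro ⟨c, hc⟩
    rw [← pow_two] at hc
    constructor
    · obtain ⟨d, hd⟩ := exists_eq_pow_of_mul_eq_pow (by rw [Nat.isUnit_iff]; exact h) hc
      exact ⟨d, by rw [hd, pow_two]⟩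
    · rw [mul_comm] at hc
      obtain ⟨d, hd⟩ := exists_eq_pow_of_mul_eq_pow (by rw [Nat.isUnit_iff]; exact h.symm) hc
      exact ⟨d, by rw [hd, pow_two]⟩
  · rintro ⟨h1, h2⟩
    exact h1.mul h2

theorem sqi_mult : sqi.IsMultiplicative := by
  rw [IsMultiplicative.iff_ne_zero]
  refine ⟨?_, ?_⟩
  · rw [sqi_apply one_ne_zero, if_pos]
    exact ⟨1, rfl⟩
  · intro m n hm hn h
    rw [sqi_apply hm, sqi_apply hn, sqi_apply (mul_ne_zero hm hn)]
    by_cases h1 : IsSquare m <;> by_cases h2 : IsSquare n <;>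
      simp [isSquare_mul_iff h, h1, h2]

theorem chi_mult : chi.IsMultiplicative := by
  rw [IsMultiplicative.iff_ne_zero]
  refine ⟨rfl, ?_⟩
  intro m n _ _ _
  rw [chi_apply, chi_apply, chi_apply]
  have h1 : m % 3 = 0 ∨ m % 3 = 1 ∨ m % 3 = 2 := by omega
  have h2 : n % 3 = 0 ∨ n % 3 = 1 ∨ n % 3 = 2 := by omega
  rcases h1 with h1 | h1 | h1 <;> rcases h2 with h2 | h2 | h2 <;> simp [Nat.mul_mod, h1, h2]

theorem isSquare_prime_pow {p : ℕ} (hp : p.Prime) (j : ℕ) : IsSquare (p ^ j) ↔ Even j := by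
  constructor
  · rintro ⟨c, hc⟩
    have h1 : (p ^ j).factorization p = (c * c).factorization p := by rw [hc]
    have hc0 : c ≠ 0 := by
      rintro rfl
      rw [mul_zero] at hc
      exact pow_ne_zero j hp.ne_zero hc
    rw [Nat.factorization_mul hc0 hc0, Nat.factorization_pow] at h1
    simp [hp.factorization_self] at h1
    exact ⟨_, h1⟩
  · rintro ⟨i, rfl⟩
    exact ⟨p ^ i, by rw [pow_add]⟩

/-- The sum on prime powers. -/
def FF (r : ℕ → ℤ) (k : ℕ) : ℤ := ∑ j ∈ Finset.range (k + 1), if Even j then r (k - j) else 0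

theorem FF_succ (r : ℕ → ℤ) (k : ℕ) : FF r (k + 2) = r (k + 2) + FF r k := by
  unfold FF
  rw [Finset.sum_range_succ', Finset.sum_range_succ']
  have h1 : ∀ j ∈ Finset.range (k + 1), (if Even (j + 1 + 1) then r (k + 2 - (j + 1 + 1)) else 0) =
      if Even j then r (k - j) else 0 := by
    intro j _
    have h2 : Even (j + 1 + 1) ↔ Even j := by
      rw [Nat.even_add_one, Nat.even_add_one, not_not]
    have h3 : k + 2 - (j + 1 + 1) = k - j := by omega
    rw [h3]
    simp only [h2]
  rw [Finset.sum_congr rfl h1]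
  simp
  ring

theorem FF_eq (r : ℕ → ℤ) (c : ℤ) (h0 : r 0 = 1) (h1 : r 1 = 1 + c)
    (h2 : ∀ k, r (k + 2) = c ^ (k + 1) + c ^ (k + 2)) (k : ℕ) :
    FF r k = ∑ i ∈ Finset.range (k + 1), c ^ i := by
  have key : ∀ k, FF r k = ∑ i ∈ Finset.range (k + 1), c ^ i ∧
      FF r (k + 1) = ∑ i ∈ Finset.range (k + 1 + 1), c ^ i := by
    intro k
    induction k with
    | zero =>
      constructor
      · rw [FF, zero_add, Finset.sum_range_one, Finset.sum_range_one]
        simp [h0]
      · simp [FF, Finset.sum_range_succ, h1]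
    | succ k ih =>
      refine ⟨ih.2, ?_⟩
      rw [FF_succ, ih.1, h2, Finset.sum_range_succ _ (k + 1 + 1), Finset.sum_range_succ _ (k + 1)]
      ring
  exact (key k).1

theorem conv_left {p : ℕ} (hp : p.Prime) (k : ℕ) :
    (sqi * rho) (p ^ k) = FF (fun i => rho (p ^ i)) k := by
  rw [ArithmeticFunction.mul_apply, Nat.sum_divisorsAntidiagonal (fun a b => sqi a * rho b),
    Nat.sum_divisors_prime_pow hp, FF]
  refine Finset.sum_congr rfl fun j hj => ?_
  have hj' : j ≤ k := by
    have := Finset.mem_range.1 hj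
    omega
  rw [Nat.pow_div hj' hp.pos, sqi_apply (pow_ne_zero j hp.ne_zero)]
  by_cases h : Even j
  · rw [if_pos ((isSquare_prime_pow hp j).2 h), if_pos h, one_mul]
  · rw [if_neg (fun h1 => h ((isSquare_prime_pow hp j).1 h1)), if_neg h, zero_mul]

theorem chi_pow (p i : ℕ) : chi (p ^ i) = chi p ^ i := by
  rw [chi_apply, chi_apply]
  have h1 : p % 3 = 0 ∨ p % 3 = 1 ∨ p % 3 = 2 := by omega
  rw [Nat.pow_mod]
  rcases h1 with h1 | h1 | h1 <;> rw [h1]
  · rcases Nat.eq_zero_or_pos i with rfl | hi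
    · simp
    · rw [zero_pow hi.ne']
      simp [hi.ne']
  · simp
  · rcases Nat.even_or_odd i with ⟨j, rfl⟩ | ⟨j, rfl⟩
    · have h2 : 2 ^ (j + j) % 3 = 1 := by
        rw [← two_mul, pow_mul, Nat.pow_mod]
        norm_num
      rw [h2]
      simp [← two_mul, pow_mul]
    · have h2 : 2 ^ (2 * j + 1) % 3 = 2 := by
        rw [pow_add, pow_mul, Nat.mul_mod, Nat.pow_mod]
        norm_num
      rw [h2]
      simp [pow_add, pow_mul]

theorem conv_right {p : ℕ} (hp : p.Prime) (k : ℕ) :
    ((zeta : ArithmeticFunction ℤ) * chi) (p ^ k) = ∑ i ∈ Finset.range (k + 1), chi p ^ i := by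
  rw [coe_zeta_mul_apply, Nat.sum_divisors_prime_pow hp]
  exact Finset.sum_congr rfl fun i _ => chi_pow p i

theorem conv : sqi * rho = (zeta : ArithmeticFunction ℤ) * chi := by
  rw [IsMultiplicative.eq_iff_eq_on_prime_powers _ (sqi_mult.mul rho_mult) _
    (isMultiplicative_zeta.natCast.mul chi_mult)]
  intro p k hp
  rw [conv_left hp, conv_right hp]
  apply FF_eq
  · rw [pow_zero]
    exact rho_mult.1
  · rw [rho_apply (pow_ne_zero 1 hp.ne_zero), chi_apply]
    have h1 : p % 3 = 0 ∨ p % 3 = 1 ∨ p % 3 = 2 := by omega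
    rcases h1 with h1 | h1 | h1
    · have h2 : p = 3 := by
        have h3 : 3 ∣ p := Nat.dvd_of_mod_eq_zero h1
        exact ((Nat.prime_dvd_prime_iff_eq Nat.prime_three hp).1 h3).symm
      subst h2
      rw [pow_one, card_roots_three]
      simp
    · rw [card_roots_one hp h1 one_ne_zero]
      simp [h1]
    · rw [card_roots_two hp h1 one_ne_zero]
      simp [h1]
  · intro k
    rw [rho_apply (pow_ne_zero _ hp.ne_zero), chi_apply]
    have h1 : p % 3 = 0 ∨ p % 3 = 1 ∨ p % 3 = 2 := by omega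
    rcases h1 with h1 | h1 | h1
    · have h2 : p = 3 := by
        have h3 : 3 ∣ p := Nat.dvd_of_mod_eq_zero h1
        exact ((Nat.prime_dvd_prime_iff_eq Nat.prime_three hp).1 h3).symm
      subst h2
      rw [card_roots_nine (by omega)]
      simp
    · rw [card_roots_one hp h1 (by omega)]
      simp [h1]
    · rw [card_roots_two hp h1 (by omega)]
      simp [h1]
      ring

end Pool.Agent.Lib.MP_b06be4_an.KC
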