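import Mathlib

/-!
# The norm form `x² + xy + y²`

Primitive representations of `M` by `x² + xy + y²` correspond, six to one, to the roots of
`z² + z + 1` modulo `M`.
-/

set_option autoImplicit false

namespace Pool.Agent.Lib.MP_b06be4_an.KC

/-- The norm form. -/
def Q (p : ℤ × ℤ) : ℤ := p.1 ^ 2 + p.1 * p.2 + p.2 ^ 2

/-- Multiplication by the sixth root of unity. -/
def rot (p : ℤ × ℤ) : ℤ × ℤ := (-p.2, p.1 + p.2)

theorem Q_rot (p : ℤ × ℤ) : Q (rot p) = Q p := by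
  unfold Q rot
  ring

theorem Q_nonneg (p : ℤ × ℤ) : 0 ≤ Q p := by
  unfold Q
  nlinarith [sq_nonneg (p.1 + p.2), sq_nonneg p.1, sq_nonneg p.2]

theorem Q_eq_zero {p : ℤ × ℤ} (h : Q p = 0) : p = 0 := by
  unfold Q at h
  have h1 : p.1 = 0 := by nlinarith [sq_nonneg (p.1 + 2 * p.2), sq_nonneg p.1]
  have h2 : p.2 = 0 := by nlinarith [sq_nonneg (2 * p.1 + p.2), sq_nonneg p.2]
  exact Prod.ext h1 h2

theorem Q_zero : Q 0 = 0 := rfl

theorem Q_pos {p : ℤ × ℤ} (h : p ≠ 0) : 0 < Q p :=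
  lt_of_le_of_ne (Q_nonneg p) (fun h1 => h (Q_eq_zero h1.symm))

/-- The existence of a representation with a given root. -/
theorem exists_rep (M : ℕ) (hM : 1 ≤ M) (z : ℤ) (hz : (M : ℤ) ∣ z ^ 2 + z + 1) :
    ∃ p : ℤ × ℤ, Q p = M ∧ (M : ℤ) ∣ p.1 - z * p.2 := by
  induction M using Nat.strong_induction_on generalizing z with
  | _ M ih =>
  rcases Nat.eq_or_lt_of_le hM with h1 | h1
  · refine ⟨(1, 0), ?_, ?_⟩
    · rw [← h1]; rfl
    · rw [← h1]; simp
  · -- reduce the root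
    obtain ⟨w, hw1, hw2⟩ : ∃ w : ℤ, (M : ℤ) ∣ z - w ∧ 2 * |w| ≤ M := by
      refine ⟨Int.bmod z M, ?_, ?_⟩
      · have h := Int.bmod_def z M
        have h2 : (M : ℤ) ∣ Int.bmod z M - z := by
          exact Int.dvd_bmod_sub_self
        have h3 := (dvd_neg (a := (M : ℤ)) (b := Int.bmod z M - z)).2 h2
        simpa using h3
      · have h3 := Int.bmod_le (x := z) (m := M) (by omega)
        have h4 := Int.le_bmod (x := z) (m := M) (by omega)
        rw [mul_comm]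
        rcases abs_cases (Int.bmod z M) with ⟨h5, _⟩ | ⟨h5, _⟩ <;> rw [h5] <;> omega
    have hM2 : (2 : ℤ) ≤ M := by exact_mod_cast h1
    have hwz : (M : ℤ) ∣ w ^ 2 + w + 1 := by
      have h2 : w ^ 2 + w + 1 = z ^ 2 + z + 1 - (z - w) * (z + w + 1) := by ring
      rw [h2]
      exact dvd_sub hz (dvd_mul_of_dvd_left hw1 _)
    obtain ⟨k, hk⟩ := hwz
    have hpos : 0 < w ^ 2 + w + 1 := by nlinarith [sq_nonneg (2 * w + 1)]
    have hk0 : 0 < k := by
      by_contra h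
      push Not at h
      nlinarith
    have habs : w ^ 2 ≤ (M : ℤ) ^ 2 / 4 ∨ True := Or.inr trivial
    have hw4 : 4 * w ^ 2 ≤ (M : ℤ) ^ 2 := by
      have h2 : (2 * |w|) ^ 2 ≤ (M : ℤ) ^ 2 := by
        apply pow_le_pow_left₀ (by positivity) hw2
      rw [mul_pow, sq_abs] at h2
      linarith
    have hw5 : 2 * w ≤ M := by
      have := le_abs_self w
      linarith
    have hkM : k < M := by
      by_contra h
      push Not at h
      have h2 : (M : ℤ) * M ≤ w ^ 2 + w + 1 := by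
        rw [hk]
        exact mul_le_mul_of_nonneg_left h (by positivity)
      nlinarith
    obtain ⟨K, rfl⟩ := Int.eq_ofNat_of_zero_le hk0.le
    have hK1 : 1 ≤ K := by omega
    have hKM : K < M := by exact_mod_cast hkM
    obtain ⟨⟨u, v⟩, hQ, hd⟩ := ih K hKM hK1 w (Dvd.intro_left _ hk.symm)
    simp only [Q] at hQ hd
    obtain ⟨Y, hY⟩ := hd
    -- `X = (w u + w v + v)/K`
    have hX : (K : ℤ) ∣ w * u + w * v + v := by
      have h2 : w * u + w * v + v = w * (u - w * v) + v * (w ^ 2 + w + 1) := by ring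
      rw [h2]
      exact dvd_add (Dvd.dvd.mul_left ⟨Y, hY⟩ _) (Dvd.dvd.mul_left (Dvd.intro_left _ hk.symm) _)
    obtain ⟨X, hX⟩ := hX
    have hK0 : (K : ℤ) ≠ 0 := by positivity
    have hMrel : X - w * Y = v * M := by
      apply mul_left_cancel₀ hK0
      have h2 : (K : ℤ) * (X - w * Y) = (w * u + w * v + v) - w * (u - w * v) := by
        rw [hX, hY]; ring
      rw [h2]
      have h3 : (w * u + w * v + v) - w * (u - w * v) = v * (w ^ 2 + w + 1) := by ring
      rw [h3, hk]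
      ring
    refine ⟨(X, Y), ?_, ?_⟩
    · simp only [Q]
      have h2 : (K : ℤ) ^ 2 * (X ^ 2 + X * Y + Y ^ 2) = (K : ℤ) ^ 2 * M := by
        have h3 : (K : ℤ) ^ 2 * (X ^ 2 + X * Y + Y ^ 2) =
            (K * X) ^ 2 + (K * X) * (K * Y) + (K * Y) ^ 2 := by ring
        rw [h3, ← hX, ← hY]
        have h4 : (w * u + w * v + v) ^ 2 + (w * u + w * v + v) * (u - w * v) + (u - w * v) ^ 2 =
            (w ^ 2 + w + 1) * (u ^ 2 + u * v + v ^ 2) := by ring
        rw [h4, hQ, hk]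
        ring
      exact mul_left_cancel₀ (pow_ne_zero 2 hK0) h2
    · simp only
      have h2 : X - z * Y = v * M - (z - w) * Y := by
        rw [← hMrel]; ring
      rw [h2]
      exact dvd_sub (Dvd.intro_left _ rfl) (dvd_mul_of_dvd_left hw1 _)

/-- The elements of norm one. -/
theorem units {a b : ℤ} (h : a ^ 2 + a * b + b ^ 2 = 1) :
    (a = 1 ∧ b = 0) ∨ (a = 0 ∧ b = 1) ∨ (a = -1 ∧ b = 1) ∨ (a = -1 ∧ b = 0) ∨
      (a = 0 ∧ b = -1) ∨ (a = 1 ∧ b = -1) := by
  have h1 : a ≤ 1 := by nlinarith [sq_nonneg (a + 2 * b)]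
  have h2 : -1 ≤ a := by nlinarith [sq_nonneg (a + 2 * b)]
  have h3 : b ≤ 1 := by nlinarith [sq_nonneg (2 * a + b)]
  have h4 : -1 ≤ b := by nlinarith [sq_nonneg (2 * a + b)]
  interval_cases a <;> interval_cases b <;> simp_all

/-- Two representations with the same root differ by a unit. -/
theorem same_root {M z : ℤ} (hM : 0 < M) (hz : M ∣ z ^ 2 + z + 1) {p q : ℤ × ℤ}
    (hp : Q p = M) (hq : Q q = M) (hp2 : M ∣ p.1 - z * p.2) (hq2 : M ∣ q.1 - z * q.2) :
    ∃ j : Fin 6, p = rot^[(j : ℕ)] q := by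
  obtain ⟨x, y⟩ := p
  obtain ⟨u, v⟩ := q
  simp only [Q] at hp hq hp2 hq2
  have hb : M ∣ y * u - x * v := by
    have h : y * u - x * v = y * (u - z * v) - v * (x - z * y) := by ring
    rw [h]
    exact dvd_sub (Dvd.dvd.mul_left hq2 _) (Dvd.dvd.mul_left hp2 _)
  have ha : M ∣ x * u + x * v + y * v := by
    have h : x * u + x * v + y * v = x * (u - z * v) + (z * v + v) * (x - z * y) +
        y * v * (z ^ 2 + z + 1) := by ring
    rw [h]
    exact dvd_add (dvd_add (Dvd.dvd.mul_left hq2 _) (Dvd.dvd.mul_left hp2 _))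
      (Dvd.dvd.mul_left hz _)
  obtain ⟨a, ha⟩ := ha
  obtain ⟨b, hb⟩ := hb
  have hM0 : M ≠ 0 := hM.ne'
  have hn : a ^ 2 + a * b + b ^ 2 = 1 := by
    have h1 : M ^ 2 * (a ^ 2 + a * b + b ^ 2) = M ^ 2 * 1 := by
      have h2 : M ^ 2 * (a ^ 2 + a * b + b ^ 2) = (M * a) ^ 2 + (M * a) * (M * b) + (M * b) ^ 2 := by
        ring
      rw [h2, ← ha, ← hb]
      have h3 : (x * u + x * v + y * v) ^ 2 + (x * u + x * v + y * v) * (y * u - x * v) +
          (y * u - x * v) ^ 2 = (x ^ 2 + x * y + y ^ 2) * (u ^ 2 + u * v + v ^ 2) := by ring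
      rw [h3, hp, hq]
      ring
    exact mul_left_cancel₀ (pow_ne_zero 2 hM0) h1
  have hx : x = a * u - b * v := by
    apply mul_left_cancel₀ hM0
    have h1 : M * (a * u - b * v) = (M * a) * u - (M * b) * v := by ring
    rw [h1, ← ha, ← hb]
    have h2 : (x * u + x * v + y * v) * u - (y * u - x * v) * v =
      (u ^ 2 + u * v + v ^ 2) * x := by ring
    rw [h2, hq]
  have hy : y = a * v + b * u + b * v := by
    apply mul_left_cancel₀ hM0
    have h1 : M * (a * v + b * u + b * v) = (M * a) * v + (M * b) * u + (M * b) * v := by ring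
    rw [h1, ← ha, ← hb]
    have h2 : (x * u + x * v + y * v) * v + (y * u - x * v) * u + (y * u - x * v) * v =
      (u ^ 2 + u * v + v ^ 2) * y := by ring
    rw [h2, hq]
  rcases units hn with ⟨rfl, rfl⟩ | ⟨rfl, rfl⟩ | ⟨rfl, rfl⟩ | ⟨rfl, rfl⟩ | ⟨rfl, rfl⟩ | ⟨rfl, rfl⟩
  · exact ⟨0, by simp [hx, hy]⟩
  · exact ⟨1, by simp [hx, hy, rot]⟩
  · exact ⟨2, by simp [hx, hy, rot]; try ring⟩
  · exact ⟨3, by simp [hx, hy, rot]⟩
  · exact ⟨4, by simp [hx, hy, rot]; try ring⟩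
  · exact ⟨5, by simp [hx, hy, rot]; ring⟩

end Pool.Agent.Lib.MP_b06be4_an.KC
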