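import Pool.Agent.Lib.MP_b06be4_an.KC.Half

/-!
# The half integral in terms of the Gamma function
-/

set_option autoImplicit false

open MeasureTheory Set Filter Topology

namespace Pool.Agent.Lib.MP_b06be4_an.KC

theorem inner_t {s x : ℝ} (hs : 1 / 2 < s) :
    ∫ t in Ioi (0 : ℝ), t ^ (s - 1) * Real.exp (-((1 + x ^ 2) * t)) =
      (1 + x ^ 2) ^ (-s) * Real.Gamma s := by
  have h1 : (0 : ℝ) < 1 + x ^ 2 := by positivity
  rw [Real.integral_rpow_mul_exp_neg_mul_Ioi (by linarith) h1, one_div,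
    Real.inv_rpow h1.le, Real.rpow_neg h1.le]

theorem inner_x {s t : ℝ} (ht : 0 < t) :
    ∫ x in Ioi (0 : ℝ), t ^ (s - 1) * Real.exp (-((1 + x ^ 2) * t)) =
      Real.sqrt Real.pi / 2 * (t ^ (s - 1 / 2 - 1) * Real.exp (-(1 * t))) := by
  have h1 : ∀ x : ℝ, t ^ (s - 1) * Real.exp (-((1 + x ^ 2) * t)) =
      t ^ (s - 1) * Real.exp (-(1 * t)) * Real.exp (-t * x ^ 2) := by
    intro x
    rw [mul_assoc, ← Real.exp_add]
    congr 2
    ring
  simp_rw [h1]
  rw [integral_const_mul, integral_gaussian_Ioi, Real.sqrt_div Real.pi_pos.le]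
  have h2 : t ^ (s - 1) = t ^ (s - 1 / 2 - 1) * Real.sqrt t := by
    rw [Real.sqrt_eq_rpow, ← Real.rpow_add ht]
    congr 1
    ring
  have h3 : Real.sqrt t ≠ 0 := (Real.sqrt_pos.2 ht).ne'
  rw [h2]
  field_simp

theorem prod_integrable {s : ℝ} (hs : 1 / 2 < s) :
    Integrable (Function.uncurry fun x t : ℝ => t ^ (s - 1) * Real.exp (-((1 + x ^ 2) * t)))
      ((volume.restrict (Ioi (0 : ℝ))).prod (volume.restrict (Ioi (0 : ℝ)))) := by
  have hm : Measurable (Function.uncurry fun x t : ℝ =>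
      t ^ (s - 1) * Real.exp (-((1 + x ^ 2) * t))) := by
    unfold Function.uncurry
    fun_prop
  rw [integrable_prod_iff hm.aestronglyMeasurable]
  constructor
  · filter_upwards with x
    simp only [Function.uncurry]
    apply Integrable.of_integral_ne_zero
    rw [inner_t hs]
    have h1 : (0 : ℝ) < 1 + x ^ 2 := by positivity
    have h2 : 0 < Real.Gamma s := Real.Gamma_pos_of_pos (by linarith)
    positivity
  · have h1 : ∀ x : ℝ, ∫ t in Ioi (0 : ℝ), ‖Function.uncurry (fun x t : ℝ =>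
        t ^ (s - 1) * Real.exp (-((1 + x ^ 2) * t))) (x, t)‖ =
        (1 + x ^ 2) ^ (-s) * Real.Gamma s := by
      intro x
      rw [← inner_t hs]
      apply setIntegral_congr_fun measurableSet_Ioi
      intro t ht
      have ht0 : (0 : ℝ) < t := ht
      simp only [Function.uncurry]
      rw [Real.norm_of_nonneg]
      positivity
    simp_rw [h1]
    exact ((one_integrable hs).mul_const _).integrableOn

theorem Bp_eq {s : ℝ} (hs : 1 / 2 < s) :
    Bp s = Real.sqrt Real.pi / 2 * Real.Gamma (s - 1 / 2) / Real.Gamma s := by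
  have h0 : 0 < Real.Gamma s := Real.Gamma_pos_of_pos (by linarith)
  rw [eq_div_iff h0.ne']
  have h1 := integral_integral_swap (prod_integrable hs)
  simp_rw [inner_t hs] at h1
  rw [integral_mul_const] at h1
  have h2 : ∫ t in Ioi (0 : ℝ), ∫ x in Ioi (0 : ℝ), t ^ (s - 1) * Real.exp (-((1 + x ^ 2) * t)) =
      ∫ t in Ioi (0 : ℝ), Real.sqrt Real.pi / 2 * (t ^ (s - 1 / 2 - 1) * Real.exp (-(1 * t))) := by
    apply setIntegral_congr_fun measurableSet_Ioi
    intro t ht
    exact inner_x ht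
  rw [h2, integral_const_mul, Real.integral_rpow_mul_exp_neg_mul_Ioi (by linarith) one_pos,
    div_one, Real.one_rpow, one_mul] at h1
  exact h1

/-- The factor of the main term. -/
noncomputable def PP (s : ℝ) : ℝ := 4 * Bp s * (Real.sqrt 3 / 2) ^ (1 - 2 * s)

/-- The Gamma form. -/
noncomputable def PG (s : ℝ) : ℝ :=
  2 * (Real.sqrt Real.pi * Real.Gamma (s - 1 / 2) / Real.Gamma s) * (Real.sqrt 3 / 2) ^ (1 - 2 * s)

theorem PP_eq {s : ℝ} (hs : 1 / 2 < s) : PP s = PG s := by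
  unfold PP PG
  rw [Bp_eq hs]
  ring

theorem PG_one : PG 1 = 4 * Real.pi / Real.sqrt 3 := by
  unfold PG
  have h1 : (1 - 1 / 2 : ℝ) = 1 / 2 := by norm_num
  have h2 : (1 - 2 * 1 : ℝ) = -1 := by norm_num
  rw [h1, h2, Real.Gamma_one_half_eq, Real.Gamma_one, Real.rpow_neg_one]
  have h3 : Real.sqrt Real.pi * Real.sqrt Real.pi = Real.pi := Real.mul_self_sqrt Real.pi_pos.le
  rw [h3]
  have h4 : Real.sqrt 3 ≠ 0 := by positivity
  field_simp
  norm_num

theorem PG_deriv : HasDerivAt PG (-(4 * Real.pi / Real.sqrt 3) * Real.log 3) 1 := by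
  have g1 : HasDerivAt (fun s : ℝ => Real.Gamma (s - 1 / 2))
      (-Real.sqrt Real.pi * (Real.eulerMascheroniConstant + 2 * Real.log 2)) 1 := by
    have h := Real.hasDerivAt_Gamma_one_half
    have h1 : HasDerivAt (fun s : ℝ => s - 1 / 2) 1 1 := (hasDerivAt_id 1).sub_const _
    have h2 : (1 / 2 : ℝ) = (1 : ℝ) - 1 / 2 := by norm_num
    rw [h2] at h
    have h3 := HasDerivAt.comp (1 : ℝ) h h1
    rw [mul_one] at h3
    exact h3
  have g2 := Real.hasDerivAt_Gamma_one
  have g3 : HasDerivAt (fun s : ℝ => (Real.sqrt 3 / 2) ^ (1 - 2 * s))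
      ((Real.sqrt 3 / 2) ^ (1 - 2 * (1 : ℝ)) * Real.log (Real.sqrt 3 / 2) * (-2)) 1 := by
    have h1 : HasDerivAt (fun s : ℝ => 1 - 2 * s) (-2) 1 := by
      simpa using ((hasDerivAt_id (1 : ℝ)).const_mul 2).const_sub 1
    have h2 := h1.const_rpow (a := Real.sqrt 3 / 2) (by positivity)
    convert! h2 using 1
    ring
  have g4 := ((g1.const_mul (Real.sqrt Real.pi)).div g2 (by
    rw [Real.Gamma_one]; exact one_ne_zero)).const_mul 2
  have g5 := g4.mul g3
  have g6 : HasDerivAt PG _ 1 := g5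
  refine g6.congr_deriv ?_
  have h1 : (1 - 1 / 2 : ℝ) = 1 / 2 := by norm_num
  have h2 : (1 - 2 * 1 : ℝ) = -1 := by norm_num
  have h3 : Real.sqrt Real.pi * Real.sqrt Real.pi = Real.pi := Real.mul_self_sqrt Real.pi_pos.le
  have h4 : Real.sqrt 3 ≠ 0 := by positivity
  have h5 : Real.log (Real.sqrt 3 / 2) = Real.log 3 / 2 - Real.log 2 := by
    rw [Real.log_div h4 (by norm_num), Real.log_sqrt (by norm_num)]
  simp only [Pi.div_apply]
  rw [h1, h2, Real.Gamma_one_half_eq, Real.Gamma_one, Real.rpow_neg_one, h5, inv_div]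
  have h6 : 2 * ((Real.sqrt Real.pi * (-Real.sqrt Real.pi * (Real.eulerMascheroniConstant +
      2 * Real.log 2)) * 1 - Real.sqrt Real.pi * Real.sqrt Real.pi *
      -Real.eulerMascheroniConstant) / 1 ^ 2) = -(4 * Real.pi * Real.log 2) := by
    linear_combination (-4 * Real.log 2) * h3
  rw [h6, h3]
  field_simp
  ring

end Pool.Agent.Lib.MP_b06be4_an.KC
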