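import Pool.Agent.Lib.MP_b06be4_an.KC.Half

/-!
# The row sums at `s = 1`
-/

set_option autoImplicit false

open MeasureTheory Set Filter Topology

namespace Pool.Agent.Lib.MP_b06be4_an.KC

theorem ker_one (y x : ℝ) : ker 1 y x = 1 / (x ^ 2 + y ^ 2) := by
  unfold ker
  rw [Real.rpow_neg_one, one_div]

theorem im_inv (θ y t : ℝ) : (1 / ((θ : ℂ) + y * Complex.I + t)).im = -y * ker 1 y (θ + t) := by
  rw [ker_one, one_div, Complex.inv_im]
  have h1 : ((θ : ℂ) + y * Complex.I + t).im = y := by simp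
  have h2 : Complex.normSq ((θ : ℂ) + y * Complex.I + t) = (θ + t) ^ 2 + y ^ 2 := by
    rw [Complex.normSq_apply]
    simp
    ring
  rw [h1, h2]
  ring

theorem row_cot {y : ℝ} (hy : 0 < y) (θ : ℝ) :
    -y * ∑' m : ℤ, ker 1 y (θ + m) =
      (Real.pi * Complex.cot (Real.pi * ((θ : ℂ) + y * Complex.I))).im := by
  set x : ℂ := (θ : ℂ) + y * Complex.I with hx
  have hxim : x.im = y := by simp [hx]
  have hxz : x ∈ Complex.integerComplement := by
    rintro ⟨m, hm⟩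
    have h1 := congrArg Complex.im hm
    rw [hxim] at h1
    simp at h1
    exact hy.ne h1
  have h1 := cot_series_rep' hxz
  have hs := (Summable.hasSum (summable_cotTerm hxz))
  have hsum := (line_bound (s := 1) (by norm_num) hy θ).1
  set g : ℤ → ℝ := fun m => -y * ker 1 y (θ + m) with hg
  have hgs : Summable g := hsum.mul_left (-y)
  have hp : Summable (fun n : ℕ => g n) := hgs.comp_injective Nat.cast_injective
  have hn : Summable (fun n : ℕ => g (-((n : ℤ) + 1))) := by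
    apply hgs.comp_injective
    intro a b hab
    simpa using hab
  have hp1 : Summable (fun n : ℕ => g ((n : ℤ) + 1)) := by
    apply hgs.comp_injective
    intro a b hab
    simpa using hab
  have h2 : ∑' m : ℤ, g m = (∑' n : ℕ, g n) + ∑' n : ℕ, g (-((n : ℤ) + 1)) :=
    tsum_of_nat_of_neg_add_one hp hn
  have h3 : ∑' n : ℕ, g n = g 0 + ∑' n : ℕ, g ((n : ℤ) + 1) := by
    rw [hp.tsum_eq_zero_add]
    simp
  have hterm : ∀ n : ℕ, (1 / (x - ((n : ℂ) + 1)) + 1 / (x + ((n : ℂ) + 1))).im =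
      g (-((n : ℤ) + 1)) + g ((n : ℤ) + 1) := by
    intro n
    rw [Complex.add_im]
    have e1 : x - ((n : ℂ) + 1) = (θ : ℂ) + y * Complex.I + (((-((n : ℤ) + 1) : ℤ) : ℝ) : ℂ) := by
      rw [hx]
      push_cast
      ring
    have e2 : x + ((n : ℂ) + 1) = (θ : ℂ) + y * Complex.I + ((((n : ℤ) + 1 : ℤ) : ℝ) : ℂ) := by
      rw [hx]
      push_cast
      ring
    rw [e1, e2, im_inv, im_inv]
  have h4 : (∑' n : ℕ, (1 / (x - ((n : ℂ) + 1)) + 1 / (x + ((n : ℂ) + 1)))).im =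
      ∑' n : ℕ, (g (-((n : ℤ) + 1)) + g ((n : ℤ) + 1)) := by
    rw [Complex.im_tsum]
    · exact tsum_congr hterm
    · exact summable_cotTerm hxz
  rw [← h1, (hn.tsum_add hp1), Complex.sub_im] at h4
  have h5 : (1 / x).im = g 0 := by
    have := im_inv θ y 0
    simp only [Complex.ofReal_zero, add_zero] at this
    rw [hx, this, hg]
    simp
  rw [← tsum_mul_left]
  change ∑' m : ℤ, g m = _
  rw [h2, h3]
  linarith

theorem row_one {n : ℕ} (hn : n ≠ 0) :
    ∑' m : ℤ, ker 1 (Real.sqrt 3 / 2 * n) ((n : ℝ) / 2 + m) =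
      Real.pi / (Real.sqrt 3 / 2 * n) *
        (1 + 2 * (-1) ^ n / (Real.exp (Real.sqrt 3 * Real.pi * n) - (-1) ^ n)) := by
  have hn0 : (0 : ℝ) < n := by
    have := Nat.pos_of_ne_zero hn
    exact_mod_cast this
  have hy : (0 : ℝ) < Real.sqrt 3 / 2 * n := by positivity
  have h1 := row_cot hy ((n : ℝ) / 2)
  set y : ℝ := Real.sqrt 3 / 2 * n with hydef
  set E : ℝ := Real.exp (Real.sqrt 3 * Real.pi * n) with hE
  have hE1 : 1 < E := by
    rw [hE]
    apply Real.one_lt_exp_iff.2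
    positivity
  have hEy : Real.exp (-(2 * Real.pi * y)) = E⁻¹ := by
    rw [hE, ← Real.exp_neg]
    congr 1
    rw [hydef]
    ring
  let z : UpperHalfPlane := ⟨(((n : ℝ) / 2 : ℝ) : ℂ) + (y : ℂ) * Complex.I, by simpa using hy⟩
  have hz : (z : ℂ) = (((n : ℝ) / 2 : ℝ) : ℂ) + (y : ℂ) * Complex.I := rfl
  have h2 := pi_mul_cot_pi_q_exp z
  rw [hz] at h2
  have hq : Complex.exp (2 * Real.pi * Complex.I * ((((n : ℝ) / 2 : ℝ) : ℂ) + (y : ℂ) * Complex.I)) =
      (((-1) ^ n * E⁻¹ : ℝ) : ℂ) := by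
    have e1 : 2 * Real.pi * Complex.I * ((((n : ℝ) / 2 : ℝ) : ℂ) + (y : ℂ) * Complex.I) =
        (n : ℂ) * (Real.pi * Complex.I) + ((-(2 * Real.pi * y) : ℝ) : ℂ) := by
      push_cast
      have := Complex.I_sq
      linear_combination (2 * Real.pi * y : ℂ) * this
    rw [e1, Complex.exp_add, Complex.exp_nat_mul, Complex.exp_pi_mul_I, ← Complex.ofReal_exp, hEy]
    push_cast
    ring
  have hqn : |(-1) ^ n * E⁻¹| < 1 := by
    rw [abs_mul, abs_pow, abs_neg, abs_one, one_pow, one_mul, abs_of_pos (by positivity)]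
    exact inv_lt_one_of_one_lt₀ hE1
  rw [hq, tsum_geometric_of_norm_lt_one (by
    rw [Complex.norm_real, Real.norm_eq_abs]; exact hqn)] at h2
  have h3 : (Real.pi * Complex.cot (Real.pi * ((((n : ℝ) / 2 : ℝ) : ℂ) + (y : ℂ) * Complex.I))).im =
      Real.pi - 2 * Real.pi * (1 - (-1) ^ n * E⁻¹)⁻¹ := by
    rw [h2]
    have e2 : Real.pi * Complex.I - 2 * Real.pi * Complex.I *
        (1 - (((-1) ^ n * E⁻¹ : ℝ) : ℂ))⁻¹ =
        ((Real.pi - 2 * Real.pi * (1 - (-1) ^ n * E⁻¹)⁻¹ : ℝ) : ℂ) * Complex.I := by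
      push_cast
      ring
    rw [e2, Complex.mul_I_im, Complex.ofReal_re]
  rw [h3] at h1
  have hEpos : 0 < E := by linarith
  have hε : ((-1 : ℝ)) ^ n = 1 ∨ ((-1 : ℝ)) ^ n = -1 := neg_one_pow_eq_or ℝ n
  have h4 : ∑' m : ℤ, ker 1 y ((n : ℝ) / 2 + m) =
      -(Real.pi - 2 * Real.pi * (1 - (-1) ^ n * E⁻¹)⁻¹) / y := by
    rw [eq_div_iff hy.ne']
    linarith
  rw [h4]
  rcases hε with hε | hε <;> rw [hε]
  · have h5 : E - 1 ≠ 0 := by linarith
    have h6 : 1 - 1 * E⁻¹ ≠ 0 := by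
      rw [one_mul]
      have := inv_lt_one_of_one_lt₀ hE1
      linarith
    field_simp
    ring
  · have h5 : E + 1 ≠ 0 := by linarith
    have h6 : E - -1 ≠ 0 := by linarith
    have h7 : 1 - -1 * E⁻¹ ≠ 0 := by
      have : 0 < E⁻¹ := by positivity
      linarith
    field_simp
    ring

end Pool.Agent.Lib.MP_b06be4_an.KC
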