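import Pool.Agent.Lib.MP_b06be4_an.KC.Dir
import Pool.Agent.Lib.MP_b06be4_an.KC.Gam
import Pool.Agent.Lib.MP_b06be4_an.KC.RowOne

/-!
# The decomposition of the Epstein zeta function into rows
-/

set_option autoImplicit false

open MeasureTheory Set Filter Topology

namespace Pool.Agent.Lib.MP_b06be4_an.KC

/-- The row sums. -/
noncomputable def GG (s : ℝ) (n : ℤ) : ℝ := ∑' m : ℤ, (Q (n, m) : ℝ) ^ (-s)

/-- The Dirichlet series of zeta. -/
noncomputable def ZZ (u : ℝ) : ℝ := ∑' k : ℕ, ((k : ℝ) + 1) ^ (-u)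

/-- The remainders. -/
noncomputable def RR (s : ℝ) (k : ℕ) : ℝ :=
  GG s ((k : ℤ) + 1) - PG s / 2 * ((k : ℝ) + 1) ^ (1 - 2 * s)

/-- The sum of the remainders. -/
noncomputable def HH (s : ℝ) : ℝ := 2 * ZZ (2 * s) + 2 * ∑' k : ℕ, RR s k

/-- The Epstein zeta function. -/
noncomputable def EE (s : ℝ) : ℝ := ∑' p : ℤ × ℤ, (Q p : ℝ) ^ (-s)

theorem Q_ker (s : ℝ) (k : ℕ) (m : ℤ) :
    (Q ((k : ℤ) + 1, m) : ℝ) ^ (-s) =
      ker s (Real.sqrt 3 / 2 * ((k : ℝ) + 1)) (((k : ℝ) + 1) / 2 + m) := by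
  unfold ker Q
  congr 1
  have h3 : Real.sqrt 3 ^ 2 = 3 := Real.sq_sqrt (by norm_num)
  push_cast
  linear_combination (-((k : ℝ) + 1) ^ 2 / 4) * h3

theorem GG_ker (s : ℝ) (k : ℕ) :
    GG s ((k : ℤ) + 1) =
      ∑' m : ℤ, ker s (Real.sqrt 3 / 2 * ((k : ℝ) + 1)) (((k : ℝ) + 1) / 2 + m) :=
  tsum_congr (Q_ker s k)

theorem y_pos (k : ℕ) : 0 < Real.sqrt 3 / 2 * ((k : ℝ) + 1) := by positivity

theorem main_term {s : ℝ} (hs : 1 / 2 < s) (k : ℕ) :
    2 * ((Real.sqrt 3 / 2 * ((k : ℝ) + 1)) ^ (1 - 2 * s) * Bp s) =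
      PG s / 2 * ((k : ℝ) + 1) ^ (1 - 2 * s) := by
  rw [← PP_eq hs, PP, Real.mul_rpow (by positivity) (by positivity)]
  ring

theorem RR_bound {s : ℝ} (hs : 1 ≤ s) (hs2 : s ≤ 2) (k : ℕ) :
    ‖RR s k‖ ≤ 32 / 9 * ((k : ℝ) + 1) ^ (-2 : ℝ) := by
  have hs' : 1 / 2 < s := by linarith
  have h1 := (line_bound hs' (y_pos k) (((k : ℝ) + 1) / 2)).2
  rw [← GG_ker, main_term hs'] at h1
  rw [Real.norm_eq_abs]
  refine h1.trans ?_
  rw [Real.mul_rpow (by positivity) (by positivity)]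
  have h3 : Real.sqrt 3 ^ 2 = 3 := Real.sq_sqrt (by norm_num)
  have h4 : Real.sqrt 3 ≤ 2 := by
    rw [Real.sqrt_le_left (by norm_num)]
    norm_num
  have h5 : (Real.sqrt 3 / 2) ^ (-(2 * s)) ≤ (Real.sqrt 3 / 2) ^ (-4 : ℝ) := by
    apply Real.rpow_le_rpow_of_exponent_ge (by positivity) (by linarith) (by linarith)
  have h6 : (Real.sqrt 3 / 2) ^ (-4 : ℝ) = 16 / 9 := by
    rw [show (-4 : ℝ) = ((-4 : ℤ) : ℝ) by norm_num, Real.rpow_intCast]
    rw [zpow_neg]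
    have h7 : (Real.sqrt 3 / 2) ^ (4 : ℤ) = 9 / 16 := by
      have : (Real.sqrt 3 / 2) ^ (4 : ℤ) = (Real.sqrt 3 ^ 2) ^ 2 / 16 := by
        rw [show (4 : ℤ) = ((4 : ℕ) : ℤ) by rfl, zpow_natCast]
        ring
      rw [this, h3]
      norm_num
    rw [h7]
    norm_num
  have h8 : ((k : ℝ) + 1) ^ (-(2 * s)) ≤ ((k : ℝ) + 1) ^ (-2 : ℝ) := by
    apply Real.rpow_le_rpow_of_exponent_le
    · have : (0 : ℝ) ≤ k := Nat.cast_nonneg k
      linarith
    · linarith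
  rw [h6] at h5
  have h9 : 0 ≤ ((k : ℝ) + 1) ^ (-(2 * s)) := by positivity
  calc 2 * ((Real.sqrt 3 / 2) ^ (-(2 * s)) * ((k : ℝ) + 1) ^ (-(2 * s)))
      ≤ 2 * (16 / 9 * ((k : ℝ) + 1) ^ (-2 : ℝ)) := by
        gcongr
    _ = 32 / 9 * ((k : ℝ) + 1) ^ (-2 : ℝ) := by ring

theorem ZZ_summable {u : ℝ} (hu : 1 < u) : Summable (fun k : ℕ => ((k : ℝ) + 1) ^ (-u)) := by
  have h1 : Summable (fun k : ℕ => (k : ℝ) ^ (-u)) := Real.summable_nat_rpow.2 (by linarith)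
  have h2 := (summable_nat_add_iff 1).2 h1
  simpa using h2

theorem ZZ_zeta {u : ℝ} (hu : 1 < u) : ((ZZ u : ℝ) : ℂ) = riemannZeta u := by
  rw [zeta_eq_tsum_one_div_nat_add_one_cpow (by simpa using hu), ZZ, Complex.ofReal_tsum]
  refine tsum_congr fun k => ?_
  rw [Complex.ofReal_cpow (by positivity), Complex.ofReal_neg, Complex.cpow_neg, one_div]
  push_cast
  rfl

theorem RR_summable {s : ℝ} (hs : 1 ≤ s) (hs2 : s ≤ 2) : Summable (RR s) :=
  Summable.of_norm_bounded ((ZZ_summable (u := 2) (by norm_num)).mul_left (32 / 9))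
    (RR_bound hs hs2)

theorem GG_neg (s : ℝ) (n : ℤ) : GG s (-n) = GG s n := by
  unfold GG
  rw [← (Equiv.neg ℤ).tsum_eq]
  refine tsum_congr fun m => ?_
  congr 2
  simp only [Q, Equiv.neg_apply]
  ring

theorem GG_zero {s : ℝ} (hs : 1 < s) : GG s 0 = 2 * ZZ (2 * s) := by
  have hsum := (epstein hs).1
  have h1 : Summable (fun m : ℤ => (Q (0, m) : ℝ) ^ (-s)) :=
    hsum.comp_injective (i := fun m : ℤ => ((0 : ℤ), m)) (fun a b h => (Prod.mk.inj h).2)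
  have h0 : (fun m : ℤ => (Q (0, m) : ℝ) ^ (-s)).Even := by
    intro m
    have : Q (0, -m) = Q (0, m) := by
      simp only [Q]
      ring
    simp only [this]
  have h4 := tsum_int_eq_zero_add_two_mul_tsum_pnat h0 h1
  have h5 : GG s 0 = ∑' m : ℤ, (Q (0, m) : ℝ) ^ (-s) := rfl
  rw [h5, h4, tsum_pnat_eq_tsum_succ (f := fun n : ℕ => (Q (0, (n : ℤ)) : ℝ) ^ (-s))]
  have h2 : ((Q (0, 0) : ℤ) : ℝ) ^ (-s) = 0 := by
    have : Q (0, 0) = 0 := rfl
    rw [this, Int.cast_zero, Real.zero_rpow (by linarith)]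
  rw [h2, zero_add, ZZ, nsmul_eq_mul, Nat.cast_ofNat]
  refine congrArg (fun z : ℝ => 2 * z) (tsum_congr fun k => ?_)
  have h3 : (Q (0, ((k + 1 : ℕ) : ℤ)) : ℝ) = ((k : ℝ) + 1) ^ (2 : ℝ) := by
    rw [Real.rpow_two]
    simp [Q]
  rw [h3, ← Real.rpow_mul (by positivity)]
  congr 1
  ring

theorem EE_eq {s : ℝ} (hs : 1 < s) (hs2 : s ≤ 2) :
    EE s = PG s * ZZ (2 * s - 1) + HH s := by
  have hsum := (epstein hs).1
  have h1 : EE s = ∑' n : ℤ, GG s n := hsum.tsum_prod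
  have h2 : Summable (GG s) := hsum.prod
  rw [h1, tsum_int_eq_zero_add_two_mul_tsum_pnat (GG_neg s) h2,
    tsum_pnat_eq_tsum_succ (f := fun n : ℕ => GG s (n : ℤ)), GG_zero hs]
  have h3 : ∀ k : ℕ, GG s ((k + 1 : ℕ) : ℤ) =
      PG s / 2 * ((k : ℝ) + 1) ^ (-(2 * s - 1)) + RR s k := by
    intro k
    rw [RR]
    push_cast
    have : (1 - 2 * s : ℝ) = -(2 * s - 1) := by ring
    rw [this]
    ring
  rw [tsum_congr h3, ((ZZ_summable (u := 2 * s - 1) (by linarith)).mul_left _).tsum_add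
    (RR_summable hs.le hs2), tsum_mul_left, HH, ← ZZ]
  ring

theorem GG_tendsto (k : ℕ) :
    Tendsto (fun s : ℝ => GG s ((k : ℤ) + 1)) (𝓝[>] 1) (𝓝 (GG 1 ((k : ℤ) + 1))) := by
  have hQ : ∀ m : ℤ, (1 : ℝ) ≤ Q ((k : ℤ) + 1, m) := by
    intro m
    have h1 : Q ((k : ℤ) + 1, m) > 0 := by
      apply Q_pos
      intro h
      have h2 := congrArg Prod.fst h
      simp only [Prod.fst_zero] at h2
      omega
    exact_mod_cast h1
  unfold GG
  apply tendsto_tsum_of_dominated_convergence (bound := fun m : ℤ => (Q ((k : ℤ) + 1, m) : ℝ) ^ (-(1:ℝ)))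
  · have := (line_bound (s := 1) (by norm_num) (y_pos k) (((k : ℝ) + 1) / 2)).1
    refine this.congr fun m => ?_
    rw [Q_ker]
  · intro m
    apply Filter.Tendsto.mono_left _ nhdsWithin_le_nhds
    have h1 : ContinuousAt (fun s : ℝ => (Q ((k : ℤ) + 1, m) : ℝ) ^ (-s)) 1 := by
      apply ContinuousAt.rpow continuousAt_const continuousAt_neg
      left
      have := hQ m
      linarith
    exact h1
  · filter_upwards [self_mem_nhdsWithin] with s hs m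
    have hs1 : (1 : ℝ) < s := hs
    rw [Real.norm_of_nonneg (Real.rpow_nonneg (by have := hQ m; linarith) _)]
    exact Real.rpow_le_rpow_of_exponent_le (hQ m) (by linarith)

theorem RR_tendsto (k : ℕ) : Tendsto (fun s : ℝ => RR s k) (𝓝[>] 1) (𝓝 (RR 1 k)) := by
  unfold RR
  apply (GG_tendsto k).sub
  apply Filter.Tendsto.mono_left _ nhdsWithin_le_nhds
  have h1 : ContinuousAt (fun s : ℝ => PG s / 2 * ((k : ℝ) + 1) ^ (1 - 2 * s)) 1 := by
    apply ContinuousAt.mul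
    · exact PG_deriv.continuousAt.div_const 2
    · apply ContinuousAt.rpow continuousAt_const (by fun_prop)
      left
      positivity
  exact h1

/-- The lattice series. -/
noncomputable def SSum : ℝ := ∑' k : ℕ, (-1 : ℝ) ^ (k + 1) /
  (((k : ℝ) + 1) * (Real.exp (Real.sqrt 3 * Real.pi * ((k : ℝ) + 1)) - (-1) ^ (k + 1)))

theorem RR_one (k : ℕ) : RR 1 k = 4 * Real.pi / Real.sqrt 3 * ((-1 : ℝ) ^ (k + 1) /
    (((k : ℝ) + 1) * (Real.exp (Real.sqrt 3 * Real.pi * ((k : ℝ) + 1)) - (-1) ^ (k + 1)))) := by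
  unfold RR
  have h1 := row_one (n := k + 1) (Nat.succ_ne_zero k)
  push_cast at h1
  rw [GG_ker, h1, PG_one]
  have h2 : (1 - 2 * 1 : ℝ) = -1 := by norm_num
  rw [h2, Real.rpow_neg_one]
  have h3 : Real.sqrt 3 ≠ 0 := by positivity
  have h4 : (k : ℝ) + 1 ≠ 0 := by positivity
  have h5 : 1 < Real.exp (Real.sqrt 3 * Real.pi * ((k : ℝ) + 1)) :=
    Real.one_lt_exp_iff.2 (by positivity)
  have h6 : Real.exp (Real.sqrt 3 * Real.pi * ((k : ℝ) + 1)) - (-1) ^ (k + 1) ≠ 0 := by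
    rcases neg_one_pow_eq_or ℝ (k + 1) with h | h <;> rw [h] <;> linarith
  field_simp
  ring

theorem HH_tendsto : Tendsto HH (𝓝[>] 1)
    (𝓝 (Real.pi ^ 2 / 3 + 8 * Real.pi / Real.sqrt 3 * SSum)) := by
  have h1 : Tendsto (fun s : ℝ => ∑' k : ℕ, RR s k) (𝓝[>] 1) (𝓝 (∑' k : ℕ, RR 1 k)) := by
    apply tendsto_tsum_of_dominated_convergence
      ((ZZ_summable (u := 2) (by norm_num)).mul_left (32 / 9)) RR_tendsto
    have h2 : ∀ᶠ s : ℝ in 𝓝[>] 1, s < 2 := by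
      apply Filter.Eventually.filter_mono nhdsWithin_le_nhds
      exact eventually_lt_nhds (by norm_num)
    filter_upwards [self_mem_nhdsWithin, h2] with s hs hs2 k
    exact RR_bound (le_of_lt hs) hs2.le k
  have h2 : ∑' k : ℕ, RR 1 k = 4 * Real.pi / Real.sqrt 3 * SSum := by
    rw [tsum_congr RR_one, tsum_mul_left, SSum]
  rw [h2] at h1
  have h3 : Tendsto (fun s : ℝ => ZZ (2 * s)) (𝓝[>] 1) (𝓝 (Real.pi ^ 2 / 6)) := by
    have h4 : Tendsto (fun s : ℝ => ((ZZ (2 * s) : ℝ) : ℂ)) (𝓝[>] 1)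
        (𝓝 (((Real.pi ^ 2 / 6 : ℝ)) : ℂ)) := by
      have h5 : Tendsto (fun s : ℝ => riemannZeta ((2 * s : ℝ) : ℂ)) (𝓝[>] 1)
          (𝓝 (riemannZeta 2)) := by
        apply Filter.Tendsto.mono_left _ nhdsWithin_le_nhds
        have h6 : ContinuousAt riemannZeta ((2 * 1 : ℝ) : ℂ) := by
          apply (differentiableAt_riemannZeta _).continuousAt
          push_cast
          norm_num
        have h7 : ContinuousAt (fun s : ℝ => riemannZeta ((2 * s : ℝ) : ℂ)) 1 := by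
          apply ContinuousAt.comp (f := fun s : ℝ => ((2 * s : ℝ) : ℂ)) h6
          fun_prop
        have h8 : riemannZeta 2 = riemannZeta ((2 * 1 : ℝ) : ℂ) := by norm_num
        rw [h8]
        exact h7
      have h6 : riemannZeta 2 = ((Real.pi ^ 2 / 6 : ℝ) : ℂ) := by
        rw [riemannZeta_two]
        push_cast
        rfl
      rw [h6] at h5
      refine h5.congr' ?_
      filter_upwards [self_mem_nhdsWithin] with s hs
      have hs1 : (1 : ℝ) < s := hs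
      rw [ZZ_zeta (by linarith)]
    exact tendsto_ofReal_iff.1 h4
  have h4 := (h3.const_mul 2).add (h1.const_mul 2)
  have h5 : 2 * (Real.pi ^ 2 / 6) + 2 * (4 * Real.pi / Real.sqrt 3 * SSum) =
      Real.pi ^ 2 / 3 + 8 * Real.pi / Real.sqrt 3 * SSum := by ring
  rw [h5] at h4
  exact h4

end Pool.Agent.Lib.MP_b06be4_an.KC
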