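import Pool.Agent.Lib.MP_b06be4_an.KC.Asm

/-!
# The comparison of the Laurent expansions at `s = 1`
-/

set_option autoImplicit false

open MeasureTheory Set Filter Topology HurwitzZeta

namespace Pool.Agent.Lib.MP_b06be4_an.KC

/-- The difference of the two Hurwitz zeta functions. -/
noncomputable def DD (z : ℂ) : ℂ :=
  hurwitzZeta ((1/3 : ℝ) : UnitAddCircle) z - hurwitzZeta ((2/3 : ℝ) : UnitAddCircle) z

theorem DD_diff : Differentiable ℂ DD := differentiable_hurwitzZeta_sub_hurwitzZeta _ _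

/-- The coefficient of zeta. -/
noncomputable def AA (z : ℂ) : ℂ := 6 * (3 ^ (-z) * DD z)

theorem AA_deriv : HasDerivAt AA (2 * (deriv DD 1 - Real.log 3 * DD 1)) 1 := by
  have h1 : HasDerivAt (fun z : ℂ => (3 : ℂ) ^ (-z)) ((3 : ℂ) ^ (-(1 : ℂ)) * Complex.log 3 * (-1)) 1 := by
    have h2 : HasDerivAt (fun z : ℂ => -z) (-1) 1 := (hasDerivAt_id (1 : ℂ)).neg
    exact h2.const_cpow (Or.inl (by norm_num))
  have h2 : HasDerivAt DD (deriv DD 1) 1 := (DD_diff 1).hasDerivAt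
  have h3 : HasDerivAt AA _ 1 := (h1.mul h2).const_mul 6
  refine h3.congr_deriv ?_
  have h4 : Complex.log 3 = (Real.log 3 : ℂ) := by
    rw [Complex.ofReal_log (by norm_num)]
    norm_num
  rw [h4, Complex.cpow_neg, Complex.cpow_one]
  ring

theorem AA_one : AA 1 = 2 * DD 1 := by
  unfold AA
  rw [Complex.cpow_neg, Complex.cpow_one]
  ring

theorem EE_AA {s : ℝ} (hs : 1 < s) : ((EE s : ℝ) : ℂ) = AA s * riemannZeta s := by
  have h := (epstein hs).2
  unfold EE AA DD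
  rw [h]
  ring

theorem EE_PG {s : ℝ} (hs : 1 < s) (hs2 : s ≤ 2) :
    ((EE s : ℝ) : ℂ) = (PG s : ℂ) * riemannZeta ((2 * s - 1 : ℝ) : ℂ) + (HH s : ℂ) := by
  rw [EE_eq hs hs2]
  push_cast
  rw [ZZ_zeta (by linarith)]
  push_cast
  rfl

theorem coe_tendsto : Tendsto (fun s : ℝ => (s : ℂ)) (𝓝[>] 1) (𝓝[≠] 1) := by
  apply tendsto_nhdsWithin_of_tendsto_nhds_of_eventually_within
  · apply Filter.Tendsto.mono_left _ nhdsWithin_le_nhds
    exact Complex.continuous_ofReal.tendsto' 1 1 (by simp)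
  · filter_upwards [self_mem_nhdsWithin] with s hs h
    have h1 : (s : ℂ) = ((1 : ℝ) : ℂ) := by simpa using h
    have h2 := Complex.ofReal_injective h1
    exact (ne_of_gt (show (1 : ℝ) < s from hs)) h2

theorem coe_tendsto' : Tendsto (fun s : ℝ => ((2 * s - 1 : ℝ) : ℂ)) (𝓝[>] 1) (𝓝[≠] 1) := by
  apply tendsto_nhdsWithin_of_tendsto_nhds_of_eventually_within
  · apply Filter.Tendsto.mono_left _ nhdsWithin_le_nhds
    have : Continuous (fun s : ℝ => ((2 * s - 1 : ℝ) : ℂ)) := by fun_prop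
    exact this.tendsto' 1 1 (by push_cast; norm_num)
  · filter_upwards [self_mem_nhdsWithin] with s hs h
    have h1 : ((2 * s - 1 : ℝ) : ℂ) = ((1 : ℝ) : ℂ) := by simpa using h
    have h2 := Complex.ofReal_injective h1
    have h3 : (1 : ℝ) < s := hs
    linarith

theorem left_lim : Tendsto (fun s : ℝ => ((EE s : ℝ) : ℂ) - AA 1 / ((s : ℂ) - 1)) (𝓝[>] 1)
    (𝓝 (AA 1 * Real.eulerMascheroniConstant + 2 * (deriv DD 1 - Real.log 3 * DD 1))) := by
  have h1 := tendsto_riemannZeta_sub_one_div.comp coe_tendsto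
  have h2 := (hasDerivAt_iff_tendsto_slope.1 AA_deriv).comp coe_tendsto
  have h3 : Tendsto (fun s : ℝ => AA s) (𝓝[>] 1) (𝓝 (AA 1)) :=
    (AA_deriv.continuousAt.tendsto.mono_left nhdsWithin_le_nhds).comp coe_tendsto
  refine ((h3.mul h1).add h2).congr' ?_
  filter_upwards [self_mem_nhdsWithin] with s hs
  have hs1 : (1 : ℝ) < s := hs
  have hne : (s : ℂ) - 1 ≠ 0 := by
    rw [sub_ne_zero]
    intro h
    have h1 : (s : ℂ) = ((1 : ℝ) : ℂ) := by simpa using h
    exact hs1.ne' (Complex.ofReal_injective h1)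
  simp only [Function.comp, slope_def_field]
  rw [EE_AA hs1]
  field_simp
  ring

theorem right_lim : Tendsto (fun s : ℝ => ((EE s : ℝ) : ℂ) - (PG 1 : ℂ) / 2 / ((s : ℂ) - 1)) (𝓝[>] 1)
    (𝓝 ((PG 1 : ℂ) * Real.eulerMascheroniConstant +
      (1 / 2) * ((-(4 * Real.pi / Real.sqrt 3) * Real.log 3 : ℝ) : ℂ) +
      ((Real.pi ^ 2 / 3 + 8 * Real.pi / Real.sqrt 3 * SSum : ℝ) : ℂ))) := by
  have h1 := tendsto_riemannZeta_sub_one_div.comp coe_tendsto'
  have h2 : Tendsto (fun s : ℝ => ((slope PG 1 s : ℝ) : ℂ)) (𝓝[>] 1)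
      (𝓝 ((-(4 * Real.pi / Real.sqrt 3) * Real.log 3 : ℝ) : ℂ)) := by
    apply tendsto_ofReal_iff.2
    have := hasDerivAt_iff_tendsto_slope.1 PG_deriv
    exact this.mono_left (nhdsWithin_mono _ (fun x hx => ne_of_gt hx))
  have h3 : Tendsto (fun s : ℝ => (PG s : ℂ)) (𝓝[>] 1) (𝓝 (PG 1 : ℂ)) := by
    apply tendsto_ofReal_iff.2
    exact PG_deriv.continuousAt.tendsto.mono_left nhdsWithin_le_nhds
  have h4 : Tendsto (fun s : ℝ => (HH s : ℂ)) (𝓝[>] 1)
      (𝓝 ((Real.pi ^ 2 / 3 + 8 * Real.pi / Real.sqrt 3 * SSum : ℝ) : ℂ)) :=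
    tendsto_ofReal_iff.2 HH_tendsto
  refine (((h3.mul h1).add (h2.const_mul (1 / 2))).add h4).congr' ?_
  have hlt : ∀ᶠ s : ℝ in 𝓝[>] 1, s < 2 := by
    apply Filter.Eventually.filter_mono nhdsWithin_le_nhds
    exact eventually_lt_nhds (by norm_num)
  filter_upwards [self_mem_nhdsWithin, hlt] with s hs hs2
  have hs1 : (1 : ℝ) < s := hs
  have hne : (s : ℂ) - 1 ≠ 0 := by
    rw [sub_ne_zero]
    intro h
    have h1 : (s : ℂ) = ((1 : ℝ) : ℂ) := by simpa using h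
    exact hs1.ne' (Complex.ofReal_injective h1)
  simp only [Function.comp, slope_def_field]
  rw [EE_PG hs1 hs2.le]
  push_cast
  have e1 : (2 * (s : ℂ) - 1 - 1) = 2 * ((s : ℂ) - 1) := by ring
  rw [e1]
  field_simp
  ring

theorem AA_PG : AA 1 = (PG 1 : ℂ) / 2 := by
  have h1 := left_lim.sub right_lim
  have h2 : Tendsto (fun s : ℝ => ((s : ℂ) - 1)) (𝓝[>] 1) (𝓝 0) := by
    apply Filter.Tendsto.mono_left _ nhdsWithin_le_nhds
    have : Continuous (fun s : ℝ => ((s : ℂ) - 1)) := by fun_prop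
    exact this.tendsto' 1 0 (by simp)
  have h3 := h1.mul h2
  rw [mul_zero] at h3
  have h4 : Tendsto (fun _ : ℝ => (PG 1 : ℂ) / 2 - AA 1) (𝓝[>] 1) (𝓝 0) := by
    refine h3.congr' ?_
    filter_upwards [self_mem_nhdsWithin] with s hs
    have hs1 : (1 : ℝ) < s := hs
    have hne : (s : ℂ) - 1 ≠ 0 := by
      rw [sub_ne_zero]
      intro h
      have h1 : (s : ℂ) = ((1 : ℝ) : ℂ) := by simpa using h
      exact hs1.ne' (Complex.ofReal_injective h1)
    field_simp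
    ring
  have h5 := tendsto_nhds_unique tendsto_const_nhds h4
  exact (sub_eq_zero.1 h5).symm

/-- The value of the difference. -/
theorem DD_one : DD 1 = ((Real.pi / Real.sqrt 3 : ℝ) : ℂ) := by
  have h1 := AA_PG
  rw [AA_one, PG_one] at h1
  have h2 : DD 1 = (2 * DD 1) / 2 := by ring
  rw [h2, h1]
  push_cast
  ring

/-- **The Kronecker limit formula of the hexagonal lattice.** -/
theorem DD_deriv : deriv DD 1 = ((Real.pi / Real.sqrt 3 * Real.eulerMascheroniConstant +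
    Real.pi ^ 2 / 6 + 4 * Real.pi / Real.sqrt 3 * SSum : ℝ) : ℂ) := by
  have h1 := left_lim
  rw [AA_PG] at h1
  have h2 := tendsto_nhds_unique h1 right_lim
  rw [DD_one, PG_one] at h2
  push_cast at h2 ⊢
  linear_combination (1 / 2) * h2

end Pool.Agent.Lib.MP_b06be4_an.KC
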