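import Pool.Agent.Lib.MP_b06be4_an.KC.Arith

/-!
# Counting primitive representations
-/

set_option autoImplicit false

namespace Pool.Agent.Lib.MP_b06be4_an.KC

/-- Primitive representations. -/
def Rep (M : ℕ) : Type := {p : ℤ × ℤ // Q p = M ∧ Int.gcd p.1 p.2 = 1}

/-- Roots of `z² + z + 1` modulo `M`. -/
def Roots (M : ℕ) : Type := {z : ZMod M // z ^ 2 + z + 1 = 0}

theorem rot_root {M z : ℤ} (hz : M ∣ z ^ 2 + z + 1) {p : ℤ × ℤ} (h : M ∣ p.1 - z * p.2) :
    M ∣ (rot p).1 - z * (rot p).2 := by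
  have h1 : (rot p).1 - z * (rot p).2 = -(z * (p.1 - z * p.2)) - p.2 * (z ^ 2 + z + 1) := by
    unfold rot
    ring
  rw [h1]
  exact dvd_sub ((Dvd.dvd.mul_left h _).neg_right) (Dvd.dvd.mul_left hz _)

theorem rot_iter_root {M z : ℤ} (hz : M ∣ z ^ 2 + z + 1) {p : ℤ × ℤ} (h : M ∣ p.1 - z * p.2)
    (j : ℕ) : M ∣ (rot^[j] p).1 - z * (rot^[j] p).2 := by
  induction j with
  | zero => exact h
  | succ j ih =>
    rw [Function.iterate_succ_apply']
    exact rot_root hz ih

theorem Q_rot_iter (p : ℤ × ℤ) (j : ℕ) : Q (rot^[j] p) = Q p := by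
  induction j with
  | zero => rfl
  | succ j ih => rw [Function.iterate_succ_apply', Q_rot, ih]

theorem prim_of_rep {M z : ℤ} (hM : 0 < M) (hz : M ∣ z ^ 2 + z + 1) {p : ℤ × ℤ} (hp : Q p = M)
    (h : M ∣ p.1 - z * p.2) : IsCoprime p.1 p.2 := by
  obtain ⟨x, y⟩ := p
  simp only [Q] at hp h ⊢
  obtain ⟨t, ht⟩ := h
  obtain ⟨s, hs⟩ := hz
  have hx : x = z * y + M * t := by linarith
  have h1 : M * (y ^ 2 * s + (2 * z + 1) * y * t + M * t ^ 2) = M * 1 := by
    have h2 : M * (y ^ 2 * s + (2 * z + 1) * y * t + M * t ^ 2) =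
        y ^ 2 * (M * s) + (2 * z + 1) * y * (M * t) + (M * t) ^ 2 := by ring
    rw [h2, ← hs, mul_one]
    have hp' := hp
    rw [hx] at hp'
    linear_combination hp'
  have h3 := mul_left_cancel₀ hM.ne' h1
  refine ⟨t, y * s + (2 * z + 1) * t - z * t, ?_⟩
  linear_combination h3 + t * hx

theorem root_of_prim {M : ℤ} {p : ℤ × ℤ} (hp : Q p = M) (h : IsCoprime p.1 p.2) :
    IsCoprime p.2 M ∧ ∃ z : ℤ, M ∣ z ^ 2 + z + 1 ∧ M ∣ p.1 - z * p.2 := by
  obtain ⟨x, y⟩ := p
  simp only [Q] at hp h ⊢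
  have h1 : IsCoprime y M := by
    have h2 : IsCoprime y (x ^ 2) := (h.symm).pow_right
    have h3 : M = x ^ 2 + y * (x + y) := by rw [← hp]; ring
    rw [h3]
    exact (IsCoprime.add_mul_left_right_iff (x := y) (y := x ^ 2) (z := x + y)).2 h2
  refine ⟨h1, ?_⟩
  obtain ⟨a, b, hab⟩ := id h1
  refine ⟨a * x, ?_, ?_⟩
  · have h2 : M ∣ y ^ 2 * ((a * x) ^ 2 + a * x + 1) := by
      have h3 : y ^ 2 * ((a * x) ^ 2 + a * x + 1) =
          M + (a * y - 1) * (a * y + 1) * x ^ 2 + (a * y - 1) * x * y := by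
        rw [← hp]; ring
      have h4 : M ∣ a * y - 1 := ⟨-b, by linear_combination hab⟩
      rw [h3]
      refine dvd_add (dvd_add dvd_rfl ?_) ?_
      · exact Dvd.dvd.mul_right (Dvd.dvd.mul_right h4 _) _
      · exact Dvd.dvd.mul_right (Dvd.dvd.mul_right h4 _) _
    exact (h1.symm.pow_right).dvd_of_dvd_mul_left h2
  · exact ⟨x * b, by linear_combination (-x) * hab⟩

theorem root_unique {M z z' : ℤ} {p : ℤ × ℤ} (h : IsCoprime p.2 M) (h1 : M ∣ p.1 - z * p.2)
    (h2 : M ∣ p.1 - z' * p.2) : M ∣ z - z' := by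
  have h3 : M ∣ p.2 * (z - z') := by
    have h4 : p.2 * (z - z') = (p.1 - z' * p.2) - (p.1 - z * p.2) := by ring
    rw [h4]
    exact dvd_sub h2 h1
  exact h.symm.dvd_of_dvd_mul_left h3

theorem rot_iter_inj {q : ℤ × ℤ} (hq : 0 < Q q) {i j : Fin 6}
    (h : rot^[(i : ℕ)] q = rot^[(j : ℕ)] q) : i = j := by
  obtain ⟨x, y⟩ := q
  have hne : ¬ (x = 0 ∧ y = 0) := by
    rintro ⟨rfl, rfl⟩
    simp [Q] at hq
  fin_cases i <;> fin_cases j <;> first
    | rfl
    | (exfalso
       apply hne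
       simp [rot, Prod.ext_iff] at h
       omega)

section
variable (M : ℕ) [NeZero M]

theorem root_dvd (z : Roots M) : (M : ℤ) ∣ ((z.1.val : ℤ)) ^ 2 + (z.1.val : ℤ) + 1 := by
  have h := z.2
  rw [← ZMod.intCast_zmod_eq_zero_iff_dvd]
  push_cast
  rw [ZMod.natCast_val, ZMod.cast_id', id]
  exact h

/-- A chosen representation. -/
noncomputable def al (z : Roots M) : ℤ × ℤ :=
  (exists_rep M (NeZero.one_le) _ (root_dvd M z)).choose

theorem al_Q (z : Roots M) : Q (al M z) = M :=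
  (exists_rep M (NeZero.one_le) _ (root_dvd M z)).choose_spec.1

theorem al_root (z : Roots M) : (M : ℤ) ∣ (al M z).1 - (z.1.val : ℤ) * (al M z).2 :=
  (exists_rep M (NeZero.one_le) _ (root_dvd M z)).choose_spec.2

/-- The parametrization. -/
noncomputable def par (x : Fin 6 × Roots M) : Rep M :=
  ⟨rot^[(x.1 : ℕ)] (al M x.2), by
    have hM : (0 : ℤ) < M := by
      have := NeZero.one_le (n := M)
      omega
    have h1 : Q (rot^[(x.1 : ℕ)] (al M x.2)) = M := by rw [Q_rot_iter, al_Q]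
    refine ⟨h1, ?_⟩
    rw [← Int.isCoprime_iff_gcd_eq_one]
    exact prim_of_rep hM (root_dvd M x.2) h1 (rot_iter_root (root_dvd M x.2) (al_root M x.2) _)⟩

theorem par_injective : Function.Injective (par M) := by
  rintro ⟨i, z⟩ ⟨j, w⟩ h
  have hM : (0 : ℤ) < M := by
    have := NeZero.one_le (n := M)
    omega
  have h1 : rot^[(i : ℕ)] (al M z) = rot^[(j : ℕ)] (al M w) := congrArg Subtype.val h
  have h2 := rot_iter_root (root_dvd M z) (al_root M z) i
  have h3 := rot_iter_root (root_dvd M w) (al_root M w) j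
  rw [← h1] at h3
  have h4 : Q (rot^[(i : ℕ)] (al M z)) = M := by rw [Q_rot_iter, al_Q]
  have h5 := (root_of_prim h4 (prim_of_rep hM (root_dvd M z) h4 h2)).1
  have h6 := root_unique h5 h2 h3
  have h7 : z = w := by
    apply Subtype.ext
    have h8 : ((z.1.val : ℤ) : ZMod M) = ((w.1.val : ℤ) : ZMod M) := by
      rw [ZMod.intCast_eq_intCast_iff_dvd_sub]
      have := h6.neg_right
      rwa [neg_sub] at this
    push_cast at h8
    rwa [ZMod.natCast_val, ZMod.cast_id', ZMod.natCast_val, ZMod.cast_id'] at h8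
  subst h7
  have h8 : i = j := rot_iter_inj (q := al M z) (by rw [al_Q]; exact hM) h1
  rw [h8]

theorem par_surjective : Function.Surjective (par M) := by
  rintro ⟨p, hp, hg⟩
  have hM : (0 : ℤ) < M := by
    have := NeZero.one_le (n := M)
    omega
  rw [← Int.isCoprime_iff_gcd_eq_one] at hg
  obtain ⟨h1, z, hz1, hz2⟩ := root_of_prim hp hg
  have hzz : ((z : ZMod M)) ^ 2 + (z : ZMod M) + 1 = 0 := by
    have := (ZMod.intCast_zmod_eq_zero_iff_dvd (z ^ 2 + z + 1) M).2 hz1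
    push_cast at this
    exact this
  set w : Roots M := ⟨(z : ZMod M), hzz⟩ with hw
  have hwz : (M : ℤ) ∣ z - (w.1.val : ℤ) := by
    rw [← ZMod.intCast_zmod_eq_zero_iff_dvd]
    push_cast
    rw [ZMod.natCast_val, ZMod.cast_id', id]
    exact sub_self _
  have h2 : (M : ℤ) ∣ p.1 - (w.1.val : ℤ) * p.2 := by
    have h3 : p.1 - (w.1.val : ℤ) * p.2 = (p.1 - z * p.2) + (z - (w.1.val : ℤ)) * p.2 := by ring
    rw [h3]
    exact dvd_add hz2 (Dvd.dvd.mul_right hwz _)
  obtain ⟨j, hj⟩ := same_root hM (root_dvd M w) hp (al_Q M w) h2 (al_root M w)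
  exact ⟨(j, w), Subtype.ext hj.symm⟩

/-- The number of primitive representations. -/
theorem card_Rep : Nat.card (Rep M) = 6 * Nat.card (Roots M) := by
  rw [← Nat.card_eq_of_bijective (par M) ⟨par_injective M, par_surjective M⟩, Nat.card_prod]
  simp

instance : Finite (Roots M) := Subtype.finite

instance : Finite (Rep M) := Finite.of_surjective (par M) (par_surjective M)

end

end Pool.Agent.Lib.MP_b06be4_an.KC
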