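import Pool.Agent.Lib.MP_b06be4_an.KC.Arf

/-!
# The Epstein zeta function of the norm form
-/

set_option autoImplicit false

namespace Pool.Agent.Lib.MP_b06be4_an.KC

open ArithmeticFunction

/-- The pairs with `Q p = n`. -/
noncomputable def SS (n : ℕ) : Finset (ℤ × ℤ) :=
  ((Finset.Icc (-(2 * n : ℤ)) (2 * n)) ×ˢ (Finset.Icc (-(2 * n : ℤ)) (2 * n))).filter
    (fun p => Q p = n)

theorem mem_SS {n : ℕ} {p : ℤ × ℤ} : p ∈ SS n ↔ Q p = n := by
  constructor
  · intro h
    exact (Finset.mem_filter.1 h).2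
  · intro h
    refine Finset.mem_filter.2 ⟨?_, h⟩
    obtain ⟨x, y⟩ := p
    simp only [Q] at h
    have hx : 3 * x ^ 2 ≤ 4 * n := by nlinarith [sq_nonneg (x + 2 * y)]
    have hy : 3 * y ^ 2 ≤ 4 * n := by nlinarith [sq_nonneg (2 * x + y)]
    have h1 : x ≤ x ^ 2 := Int.le_self_sq x
    have h2 : -x ≤ x ^ 2 := by
      have := Int.le_self_sq (-x)
      rwa [neg_sq] at this
    have h3 : y ≤ y ^ 2 := Int.le_self_sq y
    have h4 : -y ≤ y ^ 2 := by
      have := Int.le_self_sq (-y)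
      rwa [neg_sq] at this
    simp only [Finset.mem_product, Finset.mem_Icc]
    refine ⟨⟨?_, ?_⟩, ?_, ?_⟩ <;> nlinarith [sq_nonneg x, sq_nonneg y]

theorem card_fiber {g b : ℕ} (hg : g ≠ 0) :
    ((SS (g * g * b)).filter (fun p => Int.gcd p.1 p.2 ^ 2 = g * g)).card = Nat.card (Rep b) := by
  rw [← Fintype.card_coe, ← Nat.card_eq_fintype_card]
  symm
  have hg0 : (g : ℤ) ≠ 0 := by exact_mod_cast hg
  let f : Rep b → {p // p ∈ (SS (g * g * b)).filter (fun p => Int.gcd p.1 p.2 ^ 2 = g * g)} :=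
    fun q => ⟨(g * q.1.1, g * q.1.2), by
      rw [Finset.mem_filter, mem_SS]
      constructor
      · have h := q.2.1
        simp only [Q] at h ⊢
        push_cast
        linear_combination (g : ℤ) ^ 2 * h
      · simp only [Int.gcd_mul_left, q.2.2, Int.natAbs_natCast, mul_one, pow_two]⟩
  apply Nat.card_eq_of_bijective f
  constructor
  · intro q q' h
    have h1 := congrArg Subtype.val h
    apply Subtype.ext
    have h2 : (g : ℤ) * q.1.1 = g * q'.1.1 := congrArg Prod.fst h1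
    have h3 : (g : ℤ) * q.1.2 = g * q'.1.2 := congrArg Prod.snd h1
    exact Prod.ext (mul_left_cancel₀ hg0 h2) (mul_left_cancel₀ hg0 h3)
  · rintro ⟨⟨x, y⟩, hp⟩
    rw [Finset.mem_filter, mem_SS] at hp
    obtain ⟨h1, h2⟩ := hp
    simp only at h2
    rw [← pow_two] at h2
    have h3 : Int.gcd x y = g := (Nat.pow_left_injective (n := 2) (by norm_num)) h2
    obtain ⟨u, hu⟩ := Int.gcd_dvd_left (a := x) (b := y)
    obtain ⟨v, hv⟩ := Int.gcd_dvd_right (a := x) (b := y)
    rw [h3] at hu hv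
    have h4 : Int.gcd u v = 1 := by
      rw [hu, hv, Int.gcd_mul_left, Int.natAbs_natCast] at h3
      exact Nat.eq_of_mul_eq_mul_left (Nat.pos_of_ne_zero hg) (by rw [h3, mul_one])
    have h5 : Q (u, v) = b := by
      have h6 : (g : ℤ) * g * Q (u, v) = g * g * b := by
        simp only [Q] at h1 ⊢
        rw [hu, hv] at h1
        push_cast at h1
        linear_combination h1
      exact mul_left_cancel₀ (mul_ne_zero hg0 hg0) h6
    refine ⟨⟨(u, v), h5, h4⟩, ?_⟩
    apply Subtype.ext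
    exact Prod.ext hu.symm hv.symm

theorem card_SS {n : ℕ} (hn : n ≠ 0) : ((SS n).card : ℤ) = 6 * (sqi * rho) n := by
  have h1 : (SS n).card = ∑ x ∈ n.divisorsAntidiagonal,
      ((SS n).filter (fun p => (Int.gcd p.1 p.2 ^ 2, n / Int.gcd p.1 p.2 ^ 2) = x)).card := by
    apply Finset.card_eq_sum_card_fiberwise
    intro p hp
    have hp : Q p = n := mem_SS.1 hp
    have hd : Int.gcd p.1 p.2 ^ 2 ∣ n := by
      have h2 : ((Int.gcd p.1 p.2 : ℤ)) ^ 2 ∣ (n : ℤ) := by
        rw [← hp]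
        obtain ⟨u, hu⟩ := Int.gcd_dvd_left (a := p.1) (b := p.2)
        obtain ⟨v, hv⟩ := Int.gcd_dvd_right (a := p.1) (b := p.2)
        refine ⟨u ^ 2 + u * v + v ^ 2, ?_⟩
        unfold Q
        generalize (Int.gcd p.1 p.2 : ℤ) = g at *
        rw [hu, hv]
        ring
      exact_mod_cast h2
    rw [Finset.mem_coe, Nat.mem_divisorsAntidiagonal]
    exact ⟨Nat.mul_div_cancel' hd, hn⟩
  rw [h1, ArithmeticFunction.mul_apply, Finset.mul_sum]
  push_cast
  refine Finset.sum_congr rfl ?_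
  rintro ⟨a, b⟩ hx
  rw [Nat.mem_divisorsAntidiagonal] at hx
  obtain ⟨hab, _⟩ := hx
  simp only at hab
  have ha : a ≠ 0 := by
    rintro rfl
    rw [zero_mul] at hab
    exact hn hab.symm
  have hb : b ≠ 0 := by
    rintro rfl
    rw [mul_zero] at hab
    exact hn hab.symm
  have h2 : (SS n).filter (fun p => (Int.gcd p.1 p.2 ^ 2, n / Int.gcd p.1 p.2 ^ 2) = (a, b)) =
      (SS n).filter (fun p => Int.gcd p.1 p.2 ^ 2 = a) := by
    apply Finset.filter_congr
    intro p _
    rw [Prod.mk.injEq]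
    constructor
    · exact fun h => h.1
    · intro h
      refine ⟨h, ?_⟩
      rw [h, ← hab]
      exact Nat.mul_div_cancel_left b (Nat.pos_of_ne_zero ha)
  rw [h2]
  simp only
  rw [sqi_apply ha, rho_apply hb]
  by_cases hs : IsSquare a
  · rw [if_pos hs]
    obtain ⟨g, hg⟩ := hs
    subst hg
    have hg0 : g ≠ 0 := by
      rintro rfl
      simp at ha
    rw [← hab, card_fiber hg0]
    have := NeZero.mk hb
    rw [card_Rep]
    push_cast
    ring
  · rw [if_neg hs]
    have h3 : (SS n).filter (fun p => Int.gcd p.1 p.2 ^ 2 = a) = ∅ := by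
      apply Finset.filter_eq_empty_iff.2
      intro p _ h4
      exact hs ⟨Int.gcd p.1 p.2, by rw [← h4, pow_two]⟩
    rw [h3]
    simp

theorem card_SS' {n : ℕ} (hn : n ≠ 0) :
    ((SS n).card : ℤ) = 6 * ((zeta : ArithmeticFunction ℤ) * chi) n := by
  rw [card_SS hn, conv]

/-- The function on residues modulo three. -/
noncomputable def Phi3 : ZMod 3 → ℂ := fun j => if j = 1 then 1 else if j = 2 then -1 else 0

theorem chi_eq (n : ℕ) : ((chi n : ℤ) : ℂ) = Phi3 (n : ZMod 3) := by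
  rw [chi_apply, Phi3, ← ZMod.natCast_mod n 3]
  have h1 : n % 3 = 0 ∨ n % 3 = 1 ∨ n % 3 = 2 := by omega
  have h01 : ((0 : ℕ) : ZMod 3) ≠ 1 := by decide
  have h02 : ((0 : ℕ) : ZMod 3) ≠ 2 := by decide
  have h21 : ((2 : ℕ) : ZMod 3) ≠ 1 := by decide
  have h22 : ((2 : ℕ) : ZMod 3) = 2 := by decide
  rcases h1 with h1 | h1 | h1 <;> rw [h1]
  · rw [if_neg h01, if_neg h02]
    simp
  · simp
  · rw [if_neg h21, if_pos h22]
    simp

theorem LFunction_Phi3 (s : ℂ) : ZMod.LFunction Phi3 s =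
    3 ^ (-s) * (HurwitzZeta.hurwitzZeta ((1/3 : ℝ) : UnitAddCircle) s -
      HurwitzZeta.hurwitzZeta ((2/3 : ℝ) : UnitAddCircle) s) := by
  unfold ZMod.LFunction
  have h1 : ∑ j : ZMod 3, Phi3 j * HurwitzZeta.hurwitzZeta (ZMod.toAddCircle j) s =
      Phi3 0 * HurwitzZeta.hurwitzZeta (ZMod.toAddCircle (0 : ZMod 3)) s +
      Phi3 1 * HurwitzZeta.hurwitzZeta (ZMod.toAddCircle (1 : ZMod 3)) s +
      Phi3 2 * HurwitzZeta.hurwitzZeta (ZMod.toAddCircle (2 : ZMod 3)) s := by
    exact Fin.sum_univ_three _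
  rw [h1]
  have h01 : (0 : ZMod 3) ≠ 1 := by decide
  have h02 : (0 : ZMod 3) ≠ 2 := by decide
  have h21 : (2 : ZMod 3) ≠ 1 := by decide
  have p0 : Phi3 0 = 0 := by rw [Phi3, if_neg h01, if_neg h02]
  have p1 : Phi3 1 = 1 := by rw [Phi3, if_pos rfl]
  have p2 : Phi3 2 = -1 := by rw [Phi3, if_neg h21, if_pos rfl]
  rw [p0, p1, p2]
  have t1 : ZMod.toAddCircle (1 : ZMod 3) = ((1/3 : ℝ) : UnitAddCircle) := by
    have := ZMod.toAddCircle_natCast (N := 3) 1
    simpa using this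
  have t2 : ZMod.toAddCircle (2 : ZMod 3) = ((2/3 : ℝ) : UnitAddCircle) := by
    have := ZMod.toAddCircle_natCast (N := 3) 2
    simpa using this
  rw [t1, t2]
  push_cast
  ring

theorem tsum_sigma_aux {s : ℝ}
    (hsum : Summable (fun n : ℕ => ((SS n).card : ℝ) * (n : ℝ) ^ (-s))) :
    Summable (fun p : ℤ × ℤ => (Q p : ℝ) ^ (-s)) ∧
      ∑' p : ℤ × ℤ, (Q p : ℝ) ^ (-s) = ∑' n : ℕ, ((SS n).card : ℝ) * (n : ℝ) ^ (-s) := by
  let e := Equiv.sigmaFiberEquiv (fun p : ℤ × ℤ => (Q p).toNat)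
  have hval : ∀ n : ℕ, ∀ y : {p : ℤ × ℤ // (Q p).toNat = n}, (Q y.1 : ℝ) ^ (-s) = (n : ℝ) ^ (-s) := by
    intro n y
    have h1 : (Q y.1 : ℤ) = n := by
      have := Int.toNat_of_nonneg (Q_nonneg y.1)
      rw [← this, y.2]
    rw [h1]
    simp
  have hfin : ∀ n : ℕ, Finite {p : ℤ × ℤ // (Q p).toNat = n} := by
    intro n
    apply Set.Finite.subset (SS n).finite_toSet
    intro p hp
    rw [Finset.mem_coe, mem_SS]
    have := Int.toNat_of_nonneg (Q_nonneg p)
    rw [← this, hp]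
  have hcard : ∀ n : ℕ, Nat.card {p : ℤ × ℤ // (Q p).toNat = n} = (SS n).card := by
    intro n
    rw [← Fintype.card_coe, ← Nat.card_eq_fintype_card]
    apply Nat.card_congr
    apply Equiv.subtypeEquivRight
    intro p
    rw [mem_SS]
    have := Int.toNat_of_nonneg (Q_nonneg p)
    constructor
    · intro h
      rw [← this, h]
    · intro h
      rw [h]
      simp
  have hts : ∀ n : ℕ, ∑' y : {p : ℤ × ℤ // (Q p).toNat = n}, (Q y.1 : ℝ) ^ (-s) =
      ((SS n).card : ℝ) * (n : ℝ) ^ (-s) := by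
    intro n
    have := hfin n
    rw [tsum_congr (hval n), tsum_const, hcard, nsmul_eq_mul]
  have hS : Summable (fun x : (Σ n : ℕ, {p : ℤ × ℤ // (Q p).toNat = n}) => (Q x.2.1 : ℝ) ^ (-s)) := by
    rw [summable_sigma_of_nonneg]
    · refine ⟨fun n => ?_, ?_⟩
      · have := hfin n
        exact Summable.of_finite
      · simp only [hts]
        exact hsum
    · intro x
      apply Real.rpow_nonneg
      exact_mod_cast Q_nonneg _
  have hS' : Summable (fun p : ℤ × ℤ => (Q p : ℝ) ^ (-s)) := by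
    rw [← e.summable_iff]
    exact hS
  refine ⟨hS', ?_⟩
  rw [← e.tsum_eq]
  have h2 := hS.tsum_sigma
  simp only [hts] at h2
  exact h2

theorem epstein {s : ℝ} (hs : 1 < s) :
    Summable (fun p : ℤ × ℤ => (Q p : ℝ) ^ (-s)) ∧
      ((∑' p : ℤ × ℤ, (Q p : ℝ) ^ (-s) : ℝ) : ℂ) =
        6 * (riemannZeta s * (3 ^ (-(s : ℂ)) *
          (HurwitzZeta.hurwitzZeta ((1/3 : ℝ) : UnitAddCircle) s -
            HurwitzZeta.hurwitzZeta ((2/3 : ℝ) : UnitAddCircle) s))) := by
  have hs' : 1 < (s : ℂ).re := by simpa using hs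
  have hz : LSeriesSummable (fun n => (((zeta : ArithmeticFunction ℤ) : ArithmeticFunction ℂ) n)) s := by
    have := ArithmeticFunction.LSeriesSummable_zeta_iff.2 hs'
    refine (LSeriesSummable_congr s ?_).1 this
    intro n _
    simp
  have hc : LSeriesSummable (fun n => ((chi : ArithmeticFunction ℂ) n)) s := by
    have := ZMod.LSeriesSummable_of_one_lt_re Phi3 hs'
    refine (LSeriesSummable_congr s ?_).1 this
    intro n _
    rw [← chi_eq]
    rfl
  have hzc := ArithmeticFunction.LSeriesSummable_mul hz hc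
  have hL := ArithmeticFunction.LSeries_mul' hz hc
  have hLz : LSeries (fun n => (((zeta : ArithmeticFunction ℤ) : ArithmeticFunction ℂ) n)) s =
      riemannZeta s := by
    rw [← ArithmeticFunction.LSeries_zeta_eq_riemannZeta hs']
    apply LSeries_congr
    intro n _
    simp
  have hLc : LSeries (fun n => ((chi : ArithmeticFunction ℂ) n)) s = ZMod.LFunction Phi3 s := by
    rw [ZMod.LFunction_eq_LSeries Phi3 hs']
    apply LSeries_congr
    intro n _
    rw [← chi_eq]
    rfl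
  rw [hLz, hLc, LFunction_Phi3] at hL
  have hterm : ∀ n : ℕ, ((((SS n).card : ℝ) * (n : ℝ) ^ (-s) : ℝ) : ℂ) =
      6 * LSeries.term (fun n => (((zeta : ArithmeticFunction ℤ) : ArithmeticFunction ℂ) *
        (chi : ArithmeticFunction ℂ)) n) s n := by
    intro n
    rcases eq_or_ne n 0 with rfl | hn
    · rw [LSeries.term_zero]
      have : ((0 : ℕ) : ℝ) ^ (-s) = 0 := by
        rw [Nat.cast_zero, Real.zero_rpow]
        linarith
      rw [this]
      simp
    · rw [LSeries.term_of_ne_zero hn]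
      have h1 := card_SS' hn
      have h2 : (((zeta : ArithmeticFunction ℤ) : ArithmeticFunction ℂ) *
        (chi : ArithmeticFunction ℂ)) n = ((((zeta : ArithmeticFunction ℤ) * chi) n : ℤ) : ℂ) := by
        rw [← ArithmeticFunction.intCoe_mul]
        rfl
      rw [h2]
      have h3 : (((SS n).card : ℝ) : ℂ) = 6 * ((((zeta : ArithmeticFunction ℤ) * chi) n : ℤ) : ℂ) := by
        have := congrArg (fun z : ℤ => (z : ℂ)) h1
        push_cast at this ⊢
        exact this
      rw [Complex.ofReal_mul, h3, Complex.ofReal_cpow (Nat.cast_nonneg n), Complex.ofReal_neg,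
        Complex.cpow_neg]
      push_cast
      ring
  have hsumC : Summable (fun n : ℕ => ((((SS n).card : ℝ) * (n : ℝ) ^ (-s) : ℝ) : ℂ)) := by
    rw [funext hterm]
    exact Summable.mul_left 6 hzc
  have hsumR : Summable (fun n : ℕ => ((SS n).card : ℝ) * (n : ℝ) ^ (-s)) :=
    Complex.summable_ofReal.1 hsumC
  obtain ⟨h1, h2⟩ := tsum_sigma_aux hsumR
  refine ⟨h1, ?_⟩
  rw [h2, Complex.ofReal_tsum, tsum_congr hterm, tsum_mul_left, ← hL]
  rfl

end Pool.Agent.Lib.MP_b06be4_an.KC
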