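import Mathlib

/-!
# Sums of `(x² + y²)^(-s)` along a row, compared with the integral
-/

set_option autoImplicit false

open MeasureTheory Set Filter Topology

namespace Pool.Agent.Lib.MP_b06be4_an.KC

/-- The kernel. -/
noncomputable def ker (s y x : ℝ) : ℝ := (x ^ 2 + y ^ 2) ^ (-s)

/-- The half integral. -/
noncomputable def Bp (s : ℝ) : ℝ := ∫ x in Ioi (0 : ℝ), (1 + x ^ 2) ^ (-s)

theorem base_pos {y : ℝ} (hy : 0 < y) (x : ℝ) : 0 < x ^ 2 + y ^ 2 := by positivity

theorem ker_pos {s y : ℝ} (hy : 0 < y) (x : ℝ) : 0 < ker s y x :=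
  Real.rpow_pos_of_pos (base_pos hy x) _

theorem ker_neg (s y x : ℝ) : ker s y (-x) = ker s y x := by
  unfold ker
  rw [neg_sq]

theorem ker_zero {y : ℝ} (hy : 0 < y) (s : ℝ) : ker s y 0 = y ^ (-(2 * s)) := by
  unfold ker
  rw [zero_pow two_ne_zero, zero_add, ← Real.rpow_natCast, ← Real.rpow_mul hy.le]
  congr 1
  push_cast
  ring

theorem ker_anti {s y : ℝ} (hs : 0 ≤ s) (hy : 0 < y) : AntitoneOn (ker s y) (Ici 0) := by
  intro a ha b _ hab
  unfold ker
  apply Real.rpow_le_rpow_of_nonpos (base_pos hy a) _ (by linarith)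
  have h1 : (0 : ℝ) ≤ a := ha
  have h2 := pow_le_pow_left₀ h1 hab 2
  linarith

theorem ker_le {s y : ℝ} (hs : 0 ≤ s) (hy : 0 < y) (x : ℝ) : ker s y x ≤ ker s y 0 := by
  unfold ker
  apply Real.rpow_le_rpow_of_nonpos (base_pos hy 0) _ (by linarith)
  nlinarith [sq_nonneg x]

theorem ker_scale {y : ℝ} (hy : 0 < y) (s x : ℝ) :
    ker s y x = y ^ (-(2 * s)) * (1 + (y⁻¹ * x) ^ 2) ^ (-s) := by
  have h1 : x ^ 2 + y ^ 2 = y ^ 2 * (1 + (y⁻¹ * x) ^ 2) := by
    field_simp
    ring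
  unfold ker
  rw [h1, Real.mul_rpow (by positivity) (by positivity)]
  congr 1
  rw [← Real.rpow_natCast, ← Real.rpow_mul hy.le]
  congr 1
  push_cast
  ring

theorem one_integrable {s : ℝ} (hs : 1 / 2 < s) : Integrable (fun x : ℝ => (1 + x ^ 2) ^ (-s)) := by
  have h1 := integrable_rpow_neg_one_add_norm_sq (E := ℝ) (μ := volume) (r := 2 * s) (by
    rw [Module.finrank_self]
    push_cast
    linarith)
  have h2 : (fun x : ℝ => ((1 : ℝ) + ‖x‖ ^ 2) ^ (-(2 * s) / 2)) = fun x : ℝ => (1 + x ^ 2) ^ (-s) := by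
    funext x
    rw [Real.norm_eq_abs, sq_abs]
    congr 1
    ring
  rwa [h2] at h1

theorem ker_integrable {s y : ℝ} (hs : 1 / 2 < s) (hy : 0 < y) : Integrable (ker s y) := by
  have h1 : ker s y = fun x => y ^ (-(2 * s)) * (1 + (y⁻¹ * x) ^ 2) ^ (-s) :=
    funext (ker_scale hy s)
  rw [h1]
  apply Integrable.const_mul
  exact (one_integrable hs).comp_mul_left' (inv_ne_zero hy.ne')

theorem ker_integral {y : ℝ} (hy : 0 < y) (s : ℝ) :
    ∫ x in Ioi (0 : ℝ), ker s y x = y ^ (1 - 2 * s) * Bp s := by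
  have h1 : ker s y = fun x => y ^ (-(2 * s)) * (1 + (y⁻¹ * x) ^ 2) ^ (-s) :=
    funext (ker_scale hy s)
  rw [h1, integral_const_mul,
    integral_comp_mul_left_Ioi (fun x => (1 + x ^ 2) ^ (-s)) 0 (inv_pos.2 hy)]
  rw [mul_zero, inv_inv, smul_eq_mul, ← mul_assoc]
  congr 1
  rw [show (1 - 2 * s : ℝ) = -(2 * s) + 1 by ring, Real.rpow_add hy, Real.rpow_one]

theorem half_bound {s y a : ℝ} (hs : 1 / 2 < s) (hy : 0 < y) (ha0 : 0 ≤ a) (ha1 : a ≤ 1) :
    Summable (fun n : ℕ => ker s y (a + n)) ∧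
      |∑' n : ℕ, ker s y (a + n) - y ^ (1 - 2 * s) * Bp s| ≤ y ^ (-(2 * s)) := by
  have hs0 : 0 ≤ s := by linarith
  have hanti : AntitoneOn (fun x => ker s y (a + x)) (Ici 0) := by
    intro u hu v hv huv
    have h1 : (0 : ℝ) ≤ u := hu
    have h2 : (0 : ℝ) ≤ v := hv
    exact ker_anti hs0 hy (by simp only [mem_Ici]; linarith) (by simp only [mem_Ici]; linarith)
      (by linarith)
  have hint : Integrable (fun x => ker s y (a + x)) := (ker_integrable hs hy).comp_add_left a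
  have hnn : ∀ t ∈ Ioi (0 : ℝ), 0 ≤ ker s y (a + t) := fun t _ => (ker_pos hy _).le
  have hsum := hanti.summable_of_integrableOn_Ioi_zero hint.integrableOn hnn
  have h1 := hanti.tsum_le_integral hint.integrableOn hnn
  have h2 := hanti.integral_le_tsum hsum hnn
  refine ⟨hsum, ?_⟩
  have h3 : ∫ x in Ioi (0 : ℝ), ker s y (a + x) = ∫ x in Ioi a, ker s y x := by
    have := (measurePreserving_add_left volume a).setIntegral_preimage_emb
      (measurableEmbedding_addLeft a) (ker s y) (Ioi a)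
    rw [preimage_const_add_Ioi, sub_self] at this
    exact this
  have h4 : ∫ x in Ioi (0 : ℝ), ker s y x = (∫ x in Ioc 0 a, ker s y x) + ∫ x in Ioi a, ker s y x := by
    rw [← setIntegral_union (Ioc_disjoint_Ioi le_rfl) measurableSet_Ioi
      (ker_integrable hs hy).integrableOn (ker_integrable hs hy).integrableOn,
      Ioc_union_Ioi_eq_Ioi ha0]
  have h5 : 0 ≤ ∫ x in Ioc 0 a, ker s y x :=
    setIntegral_nonneg measurableSet_Ioc fun x _ => (ker_pos hy x).le
  have h6 : ∫ x in Ioc 0 a, ker s y x ≤ ker s y 0 := by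
    have h7 : ∫ x in Ioc 0 a, ker s y x ≤ ∫ x in Ioc 0 a, ker s y 0 := by
      apply setIntegral_mono_on (ker_integrable hs hy).integrableOn _ measurableSet_Ioc
      · intro x _
        exact ker_le hs0 hy x
      · exact integrableOn_const (by simp) (by simp)
    have h8 : ∫ _x in Ioc 0 a, ker s y 0 = a * ker s y 0 := by
      rw [setIntegral_const]
      simp [ha0]
    rw [h8] at h7
    have := ker_pos (s := s) hy 0
    nlinarith
  have h7 := ker_le hs0 hy a
  rw [← ker_integral hy, ← ker_zero hy, abs_le]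
  simp only [add_zero] at h1
  constructor <;> linarith

theorem line_bound {s y : ℝ} (hs : 1 / 2 < s) (hy : 0 < y) (θ : ℝ) :
    Summable (fun m : ℤ => ker s y (θ + m)) ∧
      |∑' m : ℤ, ker s y (θ + m) - 2 * (y ^ (1 - 2 * s) * Bp s)| ≤ 2 * y ^ (-(2 * s)) := by
  have key : ∀ φ : ℝ, 0 ≤ φ → φ ≤ 1 → Summable (fun m : ℤ => ker s y (φ + m)) ∧
      |∑' m : ℤ, ker s y (φ + m) - 2 * (y ^ (1 - 2 * s) * Bp s)| ≤ 2 * y ^ (-(2 * s)) := by
    intro φ h0 h1
    obtain ⟨s1, b1⟩ := half_bound hs hy h0 h1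
    obtain ⟨s2, b2⟩ := half_bound (a := 1 - φ) hs hy (by linarith) (by linarith)
    have h2 : HasSum (fun m : ℤ => ker s y (φ + m))
        ((∑' n : ℕ, ker s y (φ + n)) + ∑' n : ℕ, ker s y (1 - φ + n)) := by
      apply HasSum.of_nat_of_neg_add_one
      · simpa using s1.hasSum
      · have h3 : (fun n : ℕ => ker s y (φ + ((-((n : ℤ) + 1) : ℤ) : ℝ))) =
            fun n : ℕ => ker s y (1 - φ + n) := by
          funext n
          rw [← ker_neg]
          congr 1
          push_cast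
          ring
        rw [h3]
        exact s2.hasSum
    refine ⟨h2.summable, ?_⟩
    rw [h2.tsum_eq]
    rw [abs_le] at b1 b2 ⊢
    constructor <;> linarith [b1.1, b1.2, b2.1, b2.2]
  obtain ⟨h1, h2⟩ := key (Int.fract θ) (Int.fract_nonneg θ) (Int.fract_lt_one θ).le
  have h3 : (fun m : ℤ => ker s y (θ + m)) =
      (fun m : ℤ => ker s y (Int.fract θ + m)) ∘ (Equiv.addLeft ⌊θ⌋) := by
    funext m
    simp only [Function.comp, Equiv.coe_addLeft]
    congr 1
    push_cast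
    have := Int.fract_add_floor θ
    linarith
  constructor
  · rw [h3, (Equiv.addLeft ⌊θ⌋).summable_iff]
    exact h1
  · have h4 : ∑' m : ℤ, ker s y (θ + m) = ∑' m : ℤ, ker s y (Int.fract θ + m) := by
      rw [← (Equiv.addLeft ⌊θ⌋).tsum_eq (fun m : ℤ => ker s y (Int.fract θ + m))]
      exact congrArg tsum h3
    rw [h4]
    exact h2

end Pool.Agent.Lib.MP_b06be4_an.KC
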