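import Pool.Agent.Lib.MP_b06be4_an.KC.Count

/-!
# The number of roots of `z² + z + 1` modulo `M`
-/

set_option autoImplicit false

namespace Pool.Agent.Lib.MP_b06be4_an.KC

theorem card_roots_mul {m n : ℕ} [NeZero m] [NeZero n] (h : Nat.Coprime m n) :
    Nat.card (Roots (m * n)) = Nat.card (Roots m) * Nat.card (Roots n) := by
  rw [← Nat.card_prod]
  refine Nat.card_congr
    { toFun := fun z => (⟨(ZMod.chineseRemainder h z.1).1, ?_⟩, ⟨(ZMod.chineseRemainder h z.1).2, ?_⟩)
      invFun := fun w => ⟨(ZMod.chineseRemainder h).symm (w.1.1, w.2.1), ?_⟩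
      left_inv := ?_
      right_inv := ?_ }
  · have h1 := congrArg (ZMod.chineseRemainder h) z.2
    rw [map_add, map_add, map_pow, map_one, map_zero] at h1
    have h2 := congrArg Prod.fst h1
    simpa using h2
  · have h1 := congrArg (ZMod.chineseRemainder h) z.2
    rw [map_add, map_add, map_pow, map_one, map_zero] at h1
    have h2 := congrArg Prod.snd h1
    simpa using h2
  · rw [← map_pow, ← map_add, ← map_one (ZMod.chineseRemainder h).symm, ← map_add]
    rw [EmbeddingLike.map_eq_zero_iff]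
    apply Prod.ext
    · simpa using w.1.2
    · simpa using w.2.2
  · intro z
    apply Subtype.ext
    simp
  · intro w
    apply Prod.ext
    · apply Subtype.ext
      simp
    · apply Subtype.ext
      simp

theorem root_map {p k : ℕ} (hk : k ≠ 0) (z : Roots (p ^ k)) :
    ∃ w : ZMod p, w ^ 2 + w + 1 = 0 := by
  refine ⟨ZMod.castHom (dvd_pow_self p hk) (ZMod p) z.1, ?_⟩
  have h1 := congrArg (ZMod.castHom (dvd_pow_self p hk) (ZMod p)) z.2
  rw [map_add, map_add, map_pow, map_one, map_zero] at h1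
  exact h1

theorem card_roots_two {p k : ℕ} (hp : p.Prime) (h : p % 3 = 2) (hk : k ≠ 0) :
    Nat.card (Roots (p ^ k)) = 0 := by
  have := Fact.mk hp
  have hem : IsEmpty (Roots (p ^ k)) := by
    refine ⟨fun z => ?_⟩
    obtain ⟨w, hw⟩ := root_map hk z
    have h3 : w ^ 3 = 1 := by linear_combination (w - 1) * hw
    have h1 : w ≠ 1 := by
      rintro rfl
      have h4 : ((3 : ℕ) : ZMod p) = 0 := by
        push_cast
        linear_combination hw
      rw [ZMod.natCast_eq_zero_iff] at h4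
      have h5 := Nat.le_of_dvd (by norm_num) h4
      have h6 : p = 3 ∨ p = 2 ∨ p = 1 ∨ p = 0 := by omega
      rcases h6 with rfl | rfl | rfl | rfl <;> omega
    have h0 : w ≠ 0 := by
      rintro rfl
      simp at hw
    have : Fact (Nat.Prime 3) := ⟨Nat.prime_three⟩
    have h4 : orderOf w = 3 := orderOf_eq_prime h3 h1
    have h5 := ZMod.orderOf_dvd_card_sub_one h0
    rw [h4] at h5
    have := hp.two_le
    omega
  exact Nat.card_of_isEmpty

theorem card_roots_nine {k : ℕ} (hk : 2 ≤ k) : Nat.card (Roots (3 ^ k)) = 0 := by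
  have hem : IsEmpty (Roots (3 ^ k)) := by
    refine ⟨fun z => ?_⟩
    have hd : 9 ∣ 3 ^ k := by
      have : (9 : ℕ) = 3 ^ 2 := by norm_num
      rw [this]
      exact pow_dvd_pow 3 hk
    have h1 := congrArg (ZMod.castHom hd (ZMod 9)) z.2
    rw [map_add, map_add, map_pow, map_one, map_zero] at h1
    have h2 : ∀ w : ZMod 9, w ^ 2 + w + 1 ≠ 0 := by decide
    exact h2 _ h1
  exact Nat.card_of_isEmpty

theorem card_roots_three : Nat.card (Roots 3) = 1 := by
  have h : Nat.card {z : ZMod 3 // z ^ 2 + z + 1 = 0} = 1 := by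
    rw [Nat.card_eq_fintype_card]
    decide
  exact h

theorem card_roots_unit : Nat.card (Roots 1) = 1 := by
  have h : Nat.card {z : ZMod 1 // z ^ 2 + z + 1 = 0} = 1 := by
    rw [Nat.card_eq_fintype_card]
    decide
  exact h

theorem card_roots_one {p k : ℕ} (hp : p.Prime) (h : p % 3 = 1) (hk : k ≠ 0) :
    Nat.card (Roots (p ^ k)) = 2 := by
  have := Fact.mk hp
  have : NeZero (p ^ k) := ⟨pow_ne_zero k hp.ne_zero⟩
  have hp2 : p ≠ 2 := by
    rintro rfl
    omega
  have hcyc : IsCyclic (ZMod (p ^ k))ˣ := ZMod.isCyclic_units_of_prime_pow p hp hp2 k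
  have hp3 : ¬ p ∣ 3 := by
    intro h4
    have h5 := (Nat.prime_dvd_prime_iff_eq hp Nat.prime_three).1 h4
    omega
  have hcard : 3 ∣ Fintype.card (ZMod (p ^ k))ˣ := by
    rw [ZMod.card_units_eq_totient, Nat.totient_prime_pow hp (Nat.pos_of_ne_zero hk)]
    apply Dvd.dvd.mul_left
    have := hp.two_le
    omega
  have hcount := IsCyclic.card_orderOf_eq_totient hcard
  have h3 : Nat.totient 3 = 2 := by decide
  rw [h3] at hcount
  rw [← hcount, ← Fintype.card_subtype, ← Nat.card_eq_fintype_card]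
  have : Fact (Nat.Prime 3) := ⟨Nat.prime_three⟩
  have hne1 : ∀ z : ZMod (p ^ k), z ^ 2 + z + 1 = 0 → z ≠ 1 := by
    rintro z hz rfl
    have h4 : ((3 : ℕ) : ZMod (p ^ k)) = 0 := by
      push_cast
      linear_combination hz
    rw [ZMod.natCast_eq_zero_iff] at h4
    exact hp3 ((dvd_pow_self p hk).trans h4)
  have hroot : ∀ u : (ZMod (p ^ k))ˣ, orderOf u = 3 →
      (u : ZMod (p ^ k)) ^ 2 + (u : ZMod (p ^ k)) + 1 = 0 := by
    intro u hu
    have h4 : (u : ZMod (p ^ k)) ^ 3 = 1 := by
      rw [← Units.val_pow_eq_pow_val, ← hu, pow_orderOf_eq_one, Units.val_one]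
    have h5 : ((u : ZMod (p ^ k)) - 1) * ((u : ZMod (p ^ k)) ^ 2 + (u : ZMod (p ^ k)) + 1) = 0 := by
      linear_combination h4
    have h6 : (u : ZMod (p ^ k)) ≠ 1 := by
      intro h7
      have h8 : u = 1 := Units.ext h7
      rw [h8, orderOf_one] at hu
      omega
    obtain ⟨a, ha⟩ := ZMod.intCast_surjective ((u : ZMod (p ^ k)) - 1)
    by_cases hd : (p : ℤ) ∣ a
    · exfalso
      have h7 : IsCoprime ((p ^ k : ℕ) : ℤ) (3 + 3 * a + a ^ 2) := by
        push_cast
        apply IsCoprime.pow_left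
        rw [(Nat.prime_iff_prime_int.1 hp).coprime_iff_not_dvd]
        intro h10
        have h11 : (p : ℤ) ∣ 3 := by
          have h12 : (3 : ℤ) = (3 + 3 * a + a ^ 2) - a * (3 + a) := by ring
          rw [h12]
          exact dvd_sub h10 (Dvd.dvd.mul_right hd _)
        exact hp3 (by exact_mod_cast h11)
      have h8 : IsUnit (((3 + 3 * a + a ^ 2 : ℤ)) : ZMod (p ^ k)) :=
        (ZMod.coe_int_isUnit_iff_isCoprime _ _).2 h7
      have h9 : (((3 + 3 * a + a ^ 2 : ℤ)) : ZMod (p ^ k)) =
          (u : ZMod (p ^ k)) ^ 2 + (u : ZMod (p ^ k)) + 1 := by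
        push_cast
        rw [ha]
        ring
      rw [h9] at h8
      exact h6 (sub_eq_zero.1 ((IsUnit.mul_left_eq_zero h8).1 h5))
    · have h7 : IsCoprime ((p ^ k : ℕ) : ℤ) a := by
        push_cast
        apply IsCoprime.pow_left
        exact (Nat.prime_iff_prime_int.1 hp).coprime_iff_not_dvd.2 hd
      have h8 : IsUnit ((a : ℤ) : ZMod (p ^ k)) := (ZMod.coe_int_isUnit_iff_isCoprime _ _).2 h7
      rw [ha] at h8
      exact (IsUnit.mul_right_eq_zero h8).1 h5
  refine Nat.card_congr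
    { toFun := fun z => ⟨⟨z.1, z.1 ^ 2, ?_, ?_⟩, ?_⟩
      invFun := fun u => ⟨(u.1 : ZMod (p ^ k)), hroot u.1 u.2⟩
      left_inv := ?_
      right_inv := ?_ }
  · linear_combination (z.1 - 1) * z.2
  · linear_combination (z.1 - 1) * z.2
  · apply orderOf_eq_prime
    · apply Units.ext
      rw [Units.val_pow_eq_pow_val]
      simp only [Units.val_one]
      linear_combination (z.1 - 1) * z.2
    · intro h4
      exact hne1 z.1 z.2 (congrArg Units.val h4)
  · intro z
    rfl
  · intro u
    apply Subtype.ext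
    apply Units.ext
    rfl

end Pool.Agent.Lib.MP_b06be4_an.KC
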