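import Pool.Agent.Lib.MP_b06be4_an.KC.Const

/-!
# The first generalized Stieltjes constants
-/

set_option autoImplicit false

open MeasureTheory Set Filter Topology HurwitzZeta

namespace Pool.Agent.Lib.MP_b06be4_an.KC

/-- The regular part. -/
noncomputable def RG (a : UnitAddCircle) (z : ℂ) : ℂ := hurwitzZeta a z - 1 / (z - 1)

theorem RG_diffAt (a : UnitAddCircle) {z : ℂ} (hz : z ≠ 1) : DifferentiableAt ℂ (RG a) z := by
  apply (differentiableAt_hurwitzZeta a hz).sub
  apply DifferentiableAt.div (by fun_prop) (by fun_prop)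
  rwa [sub_ne_zero]

/-- The limit of the derivative exists. -/
theorem exists_stieltjes (a : UnitAddCircle) :
    ∃ c : ℂ, Tendsto (fun s : ℂ => deriv (fun z : ℂ => hurwitzZeta a z - 1 / (z - 1)) s)
      (𝓝[≠] (1 : ℂ)) (𝓝 (-c)) := by
  -- the entire function
  let g : ℂ → ℂ := Function.update (RG a) 1 (limUnder (𝓝[≠] 1) (RG a))
  have hb : Tendsto (fun z : ℂ => (z - 1) * RG a z) (𝓝[≠] 1) (𝓝 0) := by
    have h1 := hurwitzZeta_residue_one a
    have h2 : Tendsto (fun z : ℂ => (z - 1) * hurwitzZeta a z - 1) (𝓝[≠] 1) (𝓝 0) := by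
      have := h1.sub_const 1
      simpa using this
    refine h2.congr' ?_
    filter_upwards [self_mem_nhdsWithin] with z hz
    have hz1 : z - 1 ≠ 0 := sub_ne_zero.2 hz
    unfold RG
    field_simp
  have hd : DifferentiableOn ℂ (RG a) (univ \ {1}) := by
    intro z hz
    exact (RG_diffAt a (fun h => hz.2 h)).differentiableWithinAt
  have hg : DifferentiableOn ℂ g univ := by
    apply Complex.differentiableOn_update_limUnder_of_isLittleO univ_mem hd
    rw [Asymptotics.isLittleO_iff_tendsto']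
    · have h3 : Tendsto (fun z : ℂ => (z - 1) * RG a 1) (𝓝[≠] 1) (𝓝 0) := by
        apply Filter.Tendsto.mono_left _ nhdsWithin_le_nhds
        have : Continuous (fun z : ℂ => (z - 1) * RG a 1) := by fun_prop
        exact this.tendsto' 1 0 (by simp)
      have h4 := hb.sub h3
      rw [sub_zero] at h4
      refine h4.congr ?_
      intro z
      rw [div_inv_eq_mul]
      ring
    · filter_upwards [self_mem_nhdsWithin] with z hz h
      exact absurd (inv_eq_zero.1 h) (sub_ne_zero.2 hz)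
  have hgd : Differentiable ℂ g := differentiableOn_univ.1 hg
  have hgc : Continuous (deriv g) := by
    have := hgd.contDiff (n := 1)
    exact this.continuous_deriv le_rfl
  refine ⟨-deriv g 1, ?_⟩
  rw [neg_neg]
  refine ((hgc.tendsto 1).mono_left nhdsWithin_le_nhds).congr' ?_
  filter_upwards [self_mem_nhdsWithin] with s hs
  have hs1 : s ≠ 1 := hs
  apply Filter.EventuallyEq.deriv_eq
  have h5 : ∀ᶠ z in 𝓝 s, z ≠ 1 := isOpen_ne.mem_nhds hs1
  filter_upwards [h5] with z hz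
  exact Function.update_of_ne hz _ _

/-- The difference of the constants. -/
theorem stieltjes_sub {c₁ c₂ : ℂ}
    (h1 : Tendsto (fun s : ℂ => deriv (fun z : ℂ => hurwitzZeta ((1/3 : ℝ) : UnitAddCircle) z -
      1 / (z - 1)) s) (𝓝[≠] (1 : ℂ)) (𝓝 (-c₁)))
    (h2 : Tendsto (fun s : ℂ => deriv (fun z : ℂ => hurwitzZeta ((2/3 : ℝ) : UnitAddCircle) z -
      1 / (z - 1)) s) (𝓝[≠] (1 : ℂ)) (𝓝 (-c₂))) :
    c₂ - c₁ = deriv DD 1 := by
  have h3 := h1.sub h2
  have hDc : Continuous (deriv DD) := by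
    have := DD_diff.contDiff (n := 1)
    exact this.continuous_deriv le_rfl
  have h4 : Tendsto (deriv DD) (𝓝[≠] 1) (𝓝 (deriv DD 1)) :=
    (hDc.tendsto 1).mono_left nhdsWithin_le_nhds
  have h5 : Tendsto (deriv DD) (𝓝[≠] 1) (𝓝 (-c₁ - -c₂)) := by
    refine h3.congr' ?_
    filter_upwards [self_mem_nhdsWithin] with s hs
    have hs1 : s ≠ 1 := hs
    have h6 := deriv_sub (RG_diffAt ((1/3 : ℝ) : UnitAddCircle) hs1)
      (RG_diffAt ((2/3 : ℝ) : UnitAddCircle) hs1)
    have h7 : RG ((1/3 : ℝ) : UnitAddCircle) - RG ((2/3 : ℝ) : UnitAddCircle) = DD := by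
      funext z
      simp only [Pi.sub_apply, RG, DD]
      ring
    rw [h7] at h6
    exact h6.symm
  have h6 := tendsto_nhds_unique h5 h4
  rw [← h6]
  ring

/-- **The two forms of the hexagonal constant agree.** -/
theorem hex_const {c₁ c₂ : ℂ}
    (h1 : Tendsto (fun s : ℂ => deriv (fun z : ℂ => hurwitzZeta ((1/3 : ℝ) : UnitAddCircle) z -
      1 / (z - 1)) s) (𝓝[≠] (1 : ℂ)) (𝓝 (-c₁)))
    (h2 : Tendsto (fun s : ℂ => deriv (fun z : ℂ => hurwitzZeta ((2/3 : ℝ) : UnitAddCircle) z -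
      1 / (z - 1)) s) (𝓝[≠] (1 : ℂ)) (𝓝 (-c₂))) :
    (1/4 : ℝ) * (Real.eulerMascheroniConstant - Real.log (2 * Real.sqrt 3 * Real.pi)) +
        Real.sqrt 3 / (4 * Real.pi) * (c₂.re - c₁.re) =
      Real.eulerMascheroniConstant / 2 - 1 / 4 * Real.log (2 * Real.sqrt 3 * Real.pi) +
        Real.sqrt 3 * Real.pi / 24 + ∑' k : ℕ, (-1 : ℝ) ^ (k + 1) /
          (((k : ℝ) + 1) * (Real.exp (Real.sqrt 3 * Real.pi * ((k : ℝ) + 1)) - (-1) ^ (k + 1))) := by
  have h3 := congrArg Complex.re (stieltjes_sub h1 h2)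
  rw [DD_deriv, Complex.ofReal_re, Complex.sub_re] at h3
  rw [h3, ← SSum]
  have h4 : Real.sqrt 3 ≠ 0 := by positivity
  have h5 : Real.pi ≠ 0 := Real.pi_ne_zero
  field_simp
  ring

end Pool.Agent.Lib.MP_b06be4_an.KC
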